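import Pool.Agent.Helper2.OD.IfaceR

/-!
# Certificates on the reachable region give certificates `Cert4`
-/

namespace Pool.Agent.Helper2.OC

namespace Glue

theorem yn_mono {x y0 y : ℝ} (h0 : y0 ≤ y) (hyx : y ≤ x) (hx : x ≤ 1) :
    yn x y0 ≤ yn x y := by
  unfold yn
  have e : 2 * y - y ^ 2 + (x - y) ^ 2 / 2 - (2 * y0 - y0 ^ 2 + (x - y0) ^ 2 / 2) =
      (y - y0) * (2 - x - (y + y0) / 2) := by ring
  have : 0 ≤ (y - y0) * (2 - x - (y + y0) / 2) :=
    mul_nonneg (by linarith) (by linarith)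
  linarith

theorem yn_nonneg {x y : ℝ} (h0 : 0 ≤ y) (hyx : y ≤ x) (hx : x ≤ 1) : 0 ≤ yn x y := by
  unfold yn
  have : 0 ≤ y * (2 - y) := mul_nonneg h0 (by linarith)
  nlinarith [sq_nonneg (x - y)]

/-- invariance of the region -/
theorem yn_region {x y0 x' : ℝ} (h0 : 0 ≤ y0) (hyx : y0 ≤ x) (hx : x ≤ 1)
    (hR : y0 * (4 - 3 * x) ≤ x ^ 2) (hx' : 2 * x - x ^ 2 ≤ x') :
    yn x y0 * (4 - 3 * x') ≤ x' ^ 2 := by
  have hx0 : 0 ≤ x := h0.trans hyx
  have hD : 0 < 4 - 3 * x := by linarith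
  have hle : y0 ≤ x ^ 2 / (4 - 3 * x) := (le_div_iff₀ hD).mpr hR
  have hRx : x ^ 2 / (4 - 3 * x) ≤ x := by
    rw [div_le_iff₀ hD]
    nlinarith [mul_nonneg hx0 (sub_nonneg.mpr hx)]
  have h1 : yn x y0 ≤ yn x (x ^ 2 / (4 - 3 * x)) := yn_mono hle hRx hx
  have h2 : yn x (x ^ 2 / (4 - 3 * x)) =
      x ^ 2 * (16 - 22 * x + 7 * x ^ 2) / (4 - 3 * x) ^ 2 := by
    have hDn : 4 - 3 * x ≠ 0 := hD.ne'
    unfold yn
    rw [eq_div_iff (pow_ne_zero 2 hDn)]
    have e1 : x ^ 2 / (4 - 3 * x) * (4 - 3 * x) = x ^ 2 := div_mul_cancel₀ _ hDn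
    generalize x ^ 2 / (4 - 3 * x) = u at e1
    have e2 : (2 * u - u ^ 2 + (x - u) ^ 2 / 2) * (4 - 3 * x) ^ 2 =
        2 * (u * (4 - 3 * x)) * (4 - 3 * x) - (u * (4 - 3 * x)) ^ 2 +
          (x * (4 - 3 * x) - u * (4 - 3 * x)) ^ 2 / 2 := by ring
    rw [e2, e1]
    ring
  have h3 : yn x (x ^ 2 / (4 - 3 * x)) * (4 - 3 * (2 * x - x ^ 2)) ≤ (2 * x - x ^ 2) ^ 2 := by
    rw [h2, div_mul_eq_mul_div, div_le_iff₀ (by positivity)]
    have e : (2 * x - x ^ 2) ^ 2 * (4 - 3 * x) ^ 2 -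
        x ^ 2 * (16 - 22 * x + 7 * x ^ 2) * (4 - 3 * (2 * x - x ^ 2)) =
        x ^ 2 * (12 * x * (1 - x) ^ 2 * (2 - x)) := by ring
    have : 0 ≤ x ^ 2 * (12 * x * (1 - x) ^ 2 * (2 - x)) := by
      have : 0 ≤ 2 - x := by linarith
      positivity
    linarith
  have h4 : 0 ≤ yn x y0 := yn_nonneg h0 hyx hx
  have hX0 : 0 ≤ 2 * x - x ^ 2 := by nlinarith
  calc yn x y0 * (4 - 3 * x') ≤ yn x y0 * (4 - 3 * (2 * x - x ^ 2)) :=
        mul_le_mul_of_nonneg_left (by linarith) h4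
    _ ≤ yn x (x ^ 2 / (4 - 3 * x)) * (4 - 3 * (2 * x - x ^ 2)) :=
        mul_le_mul_of_nonneg_right h1 (by nlinarith [sq_nonneg (1 - x)])
    _ ≤ (2 * x - x ^ 2) ^ 2 := h3
    _ ≤ x' ^ 2 := pow_le_pow_left₀ hX0 hx' 2

/-- the truncated ratio -/
noncomputable def rr (x y : ℝ) : ℝ := min (y / x) (x / (4 - 3 * x))

theorem rr_nonneg {x y : ℝ} (hx : 0 ≤ x) (hx1 : x ≤ 1) (hy : 0 ≤ y) : 0 ≤ rr x y :=
  le_min (div_nonneg hy hx) (div_nonneg hx (by linarith))

theorem rr_mul {x y : ℝ} (hx1 : x ≤ 1) : rr x y * (4 - 3 * x) ≤ x := by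
  have hD : 0 < 4 - 3 * x := by linarith
  calc rr x y * (4 - 3 * x) ≤ x / (4 - 3 * x) * (4 - 3 * x) :=
        mul_le_mul_of_nonneg_right (min_le_right _ _) hD.le
    _ = x := div_mul_cancel₀ _ hD.ne'

theorem rr_le_one {x y : ℝ} (hx1 : x ≤ 1) : rr x y ≤ 1 := by
  refine (min_le_right _ _).trans ?_
  rw [div_le_one (by linarith)]
  linarith

/-- the key inequality for `x > 0` -/
theorem key {pay : ℝ → ℝ → ℝ → ℝ} {P : ℝ → ℝ → ℝ} {V : ℝ} (hp : PayOK pay) (hP : CertR pay P V)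
    {x y δ : ℝ} (hx : 0 < x) (hy : 0 ≤ y) (hyx : y ≤ x) (hx1 : x ≤ 1) (hδ : 0 ≤ δ)
    (hδ1 : δ ≤ (1 - x) ^ 2) :
    P x (rr x y) + pay x y δ ≤ P (2 * x - x ^ 2 + δ) (rr (2 * x - x ^ 2 + δ) (yn x y)) := by
  set x' : ℝ := 2 * x - x ^ 2 + δ with hx'
  have hx'1 : x' ≤ 1 := by rw [hx']; nlinarith
  have hXx' : 2 * x - x ^ 2 ≤ x' := by rw [hx']; linarith
  have hx'0 : 0 < x' := by
    have : 0 < 2 * x - x ^ 2 := by nlinarith
    linarith
  have hD : 0 < 4 - 3 * x := by linarith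
  have hD' : 0 < 4 - 3 * x' := by linarith
  set y0 : ℝ := min y (x ^ 2 / (4 - 3 * x)) with hy0
  have hy00 : 0 ≤ y0 := le_min hy (by positivity)
  have hy0y : y0 ≤ y := min_le_left _ _
  have hy0x : y0 ≤ x := hy0y.trans hyx
  have hrr : rr x y = y0 / x := by
    rw [hy0, ← min_div_div_right hx.le]
    unfold rr
    congr 1
    field_simp
  have hy0R : y0 * (4 - 3 * x) ≤ x ^ 2 := by
    calc y0 * (4 - 3 * x) ≤ x ^ 2 / (4 - 3 * x) * (4 - 3 * x) :=
          mul_le_mul_of_nonneg_right (min_le_right _ _) hD.le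
      _ = x ^ 2 := div_mul_cancel₀ _ hD.ne'
  have hpay : pay x y δ ≤ pay x y0 δ := by
    rcases le_total y (x ^ 2 / (4 - 3 * x)) with h | h
    · rw [hy0, min_eq_left h]
    · have e : y0 = x ^ 2 / (4 - 3 * x) := by rw [hy0, min_eq_right h]
      refine hp.anti x y0 y δ hy00 hy0y hyx hx1 ?_ hδ hδ1
      rw [e, div_mul_cancel₀ _ hD.ne']
  have hdyn := hP.dyn x (rr x y) x' hx.le hx1 (rr_nonneg hx.le hx1 hy) (rr_mul hx1) hXx' hx'1
  have exr : x * rr x y = y0 := by rw [hrr]; field_simp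
  have exd : x' - (2 * x - x ^ 2) = δ := by rw [hx']; ring
  rw [exr, exd] at hdyn
  have hmono : P x' (yn x y0 / x') ≤ P x' (rr x' (yn x y)) := by
    refine hP.mono x' _ _ hx'0.le hx'1 (div_nonneg (yn_nonneg hy00 hy0x hx1) hx'0.le) ?_
      (rr_mul hx'1)
    refine le_min (div_le_div_of_nonneg_right (yn_mono hy0y hyx hx1) hx'0.le) ?_
    rw [div_le_div_iff₀ hx'0 hD']
    have := yn_region hy00 hy0x hx1 hy0R hXx'
    nlinarith
  linarith

/-- the key inequality for `x = 0` -/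
theorem key0 {pay : ℝ → ℝ → ℝ → ℝ} {P : ℝ → ℝ → ℝ} {V : ℝ} (hP : CertR pay P V)
    {δ : ℝ} (hδ : 0 < δ) (hδ1 : δ ≤ 1) : pay 0 0 δ ≤ P δ (rr δ (yn 0 0)) := by
  have h := hP.dyn 0 0 δ le_rfl zero_le_one le_rfl (by norm_num) (by linarith) hδ1
  have e1 : yn 0 (0 * 0) = 0 := by unfold yn; norm_num
  have e2 : yn 0 0 = 0 := by unfold yn; norm_num
  have e3 : rr δ (yn 0 0) = 0 := by
    unfold rr
    rw [e2, zero_div]
    exact min_eq_left (div_nonneg hδ.le (by linarith))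
  rw [e1, zero_div, hP.zero] at h
  have e4 : δ - (2 * 0 - 0 ^ 2) = δ := by ring
  rw [e4, mul_zero] at h
  rw [e3]
  linarith

/-- the cut-off -/
noncomputable def cut (θ x : ℝ) : ℝ := min 1 (max 0 ((x - θ) / (θ - θ ^ 2)))

theorem cut_nonneg (θ x : ℝ) : 0 ≤ cut θ x := le_min zero_le_one (le_max_left _ _)
theorem cut_le_one (θ x : ℝ) : cut θ x ≤ 1 := min_le_left _ _

theorem cut_zero {θ x : ℝ} (h0 : 0 < θ - θ ^ 2) (hx : x ≤ θ) : cut θ x = 0 := by
  unfold cut
  have : (x - θ) / (θ - θ ^ 2) ≤ 0 := div_nonpos_of_nonpos_of_nonneg (by linarith) h0.le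
  rw [max_eq_left this]
  exact min_eq_right zero_le_one

theorem cut_one {θ x : ℝ} (h0 : 0 < θ - θ ^ 2) (hx : 2 * θ - θ ^ 2 ≤ x) : cut θ x = 1 := by
  unfold cut
  have : 1 ≤ (x - θ) / (θ - θ ^ 2) := by
    rw [le_div_iff₀ h0]; linarith
  rw [max_eq_right (zero_le_one.trans this)]
  exact min_eq_left this

theorem cut_lip {θ : ℝ} (h0 : 0 < θ - θ ^ 2) (x x' : ℝ) :
    |cut θ x - cut θ x'| ≤ 1 / (θ - θ ^ 2) * |x - x'| := by
  unfold cut
  refine (abs_min_sub_min_le_max _ _ _ _).trans ?_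
  rw [sub_self, abs_zero]
  refine max_le (by positivity) ?_
  refine (abs_max_sub_max_le_max _ _ _ _).trans ?_
  rw [sub_self, abs_zero]
  refine max_le (by positivity) ?_
  rw [← sub_div, abs_div, abs_of_pos h0]
  have : x - θ - (x' - θ) = x - x' := by ring
  rw [this]
  exact le_of_eq (by ring)

/-- the extended potential -/
noncomputable def HH (P : ℝ → ℝ → ℝ) (θ x y : ℝ) : ℝ := P (max x θ) (rr (max x θ) y)

/-- the glued potential -/
noncomputable def GG (P : ℝ → ℝ → ℝ) (θ c η x y : ℝ) : ℝ :=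
  c * x + cut θ x * (HH P θ x y + η - c * x)

theorem rr_lip {θ : ℝ} (hθ : 0 < θ) {x x' y y' : ℝ} (hx : θ ≤ x) (hx1 : x ≤ 1) (hx' : θ ≤ x')
    (hx'1 : x' ≤ 1) (hy' : 0 ≤ y') (hy'1 : y' ≤ 1) :
    |rr x y - rr x' y'| ≤ (1 / θ + 1 / θ ^ 2 + 4) * (|x - x'| + |y - y'|) := by
  have hx0 : 0 < x := hθ.trans_le hx
  have hx'0 : 0 < x' := hθ.trans_le hx'
  have a1 := abs_nonneg (x - x')
  have a2 := abs_nonneg (y - y')
  unfold rr
  refine (abs_min_sub_min_le_max _ _ _ _).trans ?_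
  refine max_le ?_ ?_
  · have e : y / x - y' / x' = (y - y') / x + y' * (x' - x) / (x * x') := by
      field_simp
      ring
    rw [e]
    refine (abs_add_le _ _).trans ?_
    rw [abs_div, abs_div, abs_mul, abs_of_pos hx0, abs_of_pos (mul_pos hx0 hx'0), abs_of_nonneg hy']
    have b1 : |y - y'| / x ≤ 1 / θ * |y - y'| := by
      rw [div_le_iff₀ hx0]
      have : 1 ≤ 1 / θ * x := by
        rw [one_div, ← div_eq_inv_mul, one_le_div hθ]; exact hx
      nlinarith
    have b2 : y' * |x' - x| / (x * x') ≤ 1 / θ ^ 2 * |x - x'| := by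
      rw [abs_sub_comm x' x, div_le_iff₀ (mul_pos hx0 hx'0)]
      have c1 : θ ^ 2 ≤ x * x' := by nlinarith
      have c2 : 1 ≤ 1 / θ ^ 2 * (x * x') := by
        rw [one_div, ← div_eq_inv_mul, one_le_div (by positivity)]; exact c1
      have c3 : y' * |x - x'| ≤ 1 * |x - x'| := mul_le_mul_of_nonneg_right hy'1 a1
      nlinarith
    have b3 : (0:ℝ) ≤ 1 / θ := by positivity
    have b4 : (0:ℝ) ≤ 1 / θ ^ 2 := by positivity
    nlinarith [mul_nonneg b3 a1, mul_nonneg b4 a2]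
  · have hD : 0 < 4 - 3 * x := by linarith
    have hD' : 0 < 4 - 3 * x' := by linarith
    have e : x / (4 - 3 * x) - x' / (4 - 3 * x') = 4 * (x - x') / ((4 - 3 * x) * (4 - 3 * x')) := by
      rw [div_sub_div _ _ hD.ne' hD'.ne']
      congr 1
      ring
    rw [e, abs_div, abs_mul, abs_of_pos (by norm_num : (0:ℝ) < 4),
      abs_of_pos (mul_pos hD hD'), div_le_iff₀ (mul_pos hD hD')]
    have c1 : 1 ≤ (4 - 3 * x) * (4 - 3 * x') := by nlinarith
    have b3 : (0:ℝ) ≤ 1 / θ := by positivity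
    have b4 : (0:ℝ) ≤ 1 / θ ^ 2 := by positivity
    have c2 : 4 * |x - x'| ≤ (1 / θ + 1 / θ ^ 2 + 4) * (|x - x'| + |y - y'|) := by
      nlinarith [mul_nonneg b3 a1, mul_nonneg b4 a2, mul_nonneg b3 a2, mul_nonneg b4 a1]
    have c3 : 0 ≤ (1 / θ + 1 / θ ^ 2 + 4) * (|x - x'| + |y - y'|) := by positivity
    nlinarith

theorem HH_bounds {pay : ℝ → ℝ → ℝ → ℝ} {P : ℝ → ℝ → ℝ} {V : ℝ} (hP : CertR pay P V) {θ : ℝ}
    (hθ : 0 < θ) (hθ1 : θ ≤ 1) {x y : ℝ} (hx1 : x ≤ 1) (hy : 0 ≤ y) :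
    0 ≤ HH P θ x y ∧ HH P θ x y ≤ V := by
  have h1 : max x θ ≤ 1 := max_le hx1 hθ1
  have h0 : 0 ≤ max x θ := hθ.le.trans (le_max_right _ _)
  exact ⟨hP.nonneg _ _ h0 h1 (rr_nonneg h0 h1 hy) (rr_mul h1),
    hP.le _ _ h0 h1 (rr_nonneg h0 h1 hy) (rr_mul h1)⟩

theorem HH_lip {pay : ℝ → ℝ → ℝ → ℝ} {P : ℝ → ℝ → ℝ} {V : ℝ} (hP : CertR pay P V) {θ : ℝ}
    (hθ : 0 < θ) (hθ1 : θ ≤ 1) : ∃ L : ℝ, 0 ≤ L ∧ ∀ x y x' y' : ℝ, 0 ≤ y → y ≤ x → x ≤ 1 →
      0 ≤ y' → y' ≤ x' → x' ≤ 1 →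
      |HH P θ x y - HH P θ x' y'| ≤ L * (|x - x'| + |y - y'|) := by
  obtain ⟨L, hL⟩ := hP.lip
  set M : ℝ := 1 / θ + 1 / θ ^ 2 + 4 with hM
  have hM0 : 0 ≤ M := by positivity
  refine ⟨|L| * (1 + M), by positivity, ?_⟩
  intro x y x' y' hy hyx hx1 hy' hyx' hx'1
  have h1 : max x θ ≤ 1 := max_le hx1 hθ1
  have h0 : 0 ≤ max x θ := hθ.le.trans (le_max_right _ _)
  have h1' : max x' θ ≤ 1 := max_le hx'1 hθ1
  have h0' : 0 ≤ max x' θ := hθ.le.trans (le_max_right _ _)
  have hlip := hL (max x θ) (rr (max x θ) y) (max x' θ) (rr (max x' θ) y') h0 h1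
    (rr_nonneg h0 h1 hy) (rr_le_one h1) h0' h1' (rr_nonneg h0' h1' hy') (rr_le_one h1')
  have hmx : |max x θ - max x' θ| ≤ |x - x'| := by
    refine (abs_max_sub_max_le_max _ _ _ _).trans ?_
    rw [sub_self, abs_zero]
    exact max_le le_rfl (abs_nonneg _)
  have hr := rr_lip hθ (le_max_right x θ) h1 (le_max_right x' θ) h1' hy' (hyx'.trans hx'1) (y := y)
  unfold HH
  refine hlip.trans ?_
  have a1 := abs_nonneg (x - x')
  have a2 := abs_nonneg (y - y')
  have a3 := abs_nonneg (max x θ - max x' θ)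
  have a4 := abs_nonneg (rr (max x θ) y - rr (max x' θ) y')
  have hr' : |rr (max x θ) y - rr (max x' θ) y'| ≤ M * (|x - x'| + |y - y'|) :=
    hr.trans (mul_le_mul_of_nonneg_left (by linarith) hM0)
  calc L * (|max x θ - max x' θ| + |rr (max x θ) y - rr (max x' θ) y'|)
      ≤ |L| * (|max x θ - max x' θ| + |rr (max x θ) y - rr (max x' θ) y'|) :=
        mul_le_mul_of_nonneg_right (le_abs_self L) (by positivity)
    _ ≤ |L| * ((1 + M) * (|x - x'| + |y - y'|)) := by
        refine mul_le_mul_of_nonneg_left ?_ (abs_nonneg L)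
        nlinarith
    _ = |L| * (1 + M) * (|x - x'| + |y - y'|) := by ring

end Glue

open Glue in
/-- GLUE. -/
theorem glue : GlueStatement := by
  intro pay P V hV hp hP η hη
  obtain ⟨L, hL, hbd⟩ := hp.bound
  set c : ℝ := 2 * L + 1 with hc
  have hc0 : 0 < c := by rw [hc]; linarith
  obtain ⟨θ, hθ, hθ4, hcθ⟩ : ∃ θ : ℝ, 0 < θ ∧ θ ≤ 1 / 4 ∧ 4 * c * θ ≤ η := by
    refine ⟨min (1 / 4) (η / (4 * c)), lt_min (by norm_num) (by positivity), min_le_left _ _, ?_⟩
    calc 4 * c * min (1 / 4) (η / (4 * c)) ≤ 4 * c * (η / (4 * c)) :=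
          mul_le_mul_of_nonneg_left (min_le_right _ _) (by positivity)
      _ = η := by field_simp
  have hθ1 : θ ≤ 1 := by linarith
  have hθθ : 0 < θ - θ ^ 2 := by nlinarith
  have hHb : ∀ {x y : ℝ}, x ≤ 1 → 0 ≤ y → 0 ≤ HH P θ x y ∧ HH P θ x y ≤ V :=
    fun hx hy => HH_bounds hP hθ hθ1 hx hy
  refine ⟨GG P θ c η, ?_, ?_, ?_, ?_, ?_, ?_⟩
  · -- zero
    unfold GG
    rw [cut_zero hθθ hθ.le]
    ring
  · -- nonneg
    intro x y hy hyx hx1
    have hx0 : 0 ≤ x := hy.trans hyx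
    have e : GG P θ c η x y = (1 - cut θ x) * (c * x) + cut θ x * (HH P θ x y + η) := by
      unfold GG; ring
    rw [e]
    have := (hHb hx1 hy).1
    exact add_nonneg (mul_nonneg (sub_nonneg.mpr (cut_le_one _ _)) (mul_nonneg hc0.le hx0))
      (mul_nonneg (cut_nonneg _ _) (by linarith))
  · -- upper bound
    intro x y hy hyx hx1
    have hx0 : 0 ≤ x := hy.trans hyx
    have hH := hHb hx1 hy
    have e : GG P θ c η x y = (1 - cut θ x) * (c * x) + cut θ x * (HH P θ x y + η) := by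
      unfold GG; ring
    rw [e]
    rcases le_total (2 * θ - θ ^ 2) x with h | h
    · rw [cut_one hθθ h]
      linarith
    · have h1 : c * x ≤ V + η := by
        have : c * x ≤ c * (2 * θ) := mul_le_mul_of_nonneg_left (by nlinarith [sq_nonneg θ]) hc0.le
        nlinarith
      have a1 := cut_nonneg θ x
      have a2 := cut_le_one θ x
      have b1 : (1 - cut θ x) * (c * x) ≤ (1 - cut θ x) * (V + η) :=
        mul_le_mul_of_nonneg_left h1 (by linarith)
      have b2 : cut θ x * (HH P θ x y + η) ≤ cut θ x * (V + η) :=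
        mul_le_mul_of_nonneg_left (by linarith) a1
      linarith
  · -- Lipschitz
    obtain ⟨M, hM0, hM⟩ := HH_lip hP hθ hθ1
    set D : ℝ := 1 / (θ - θ ^ 2) with hD
    have hD0 : 0 ≤ D := by positivity
    refine ⟨c + D * (V + η + c) + (M + c), ?_⟩
    intro x y x' y' hy hyx hx1 hy' hyx' hx'1
    have hx0 : 0 ≤ x := hy.trans hyx
    have hx'0 : 0 ≤ x' := hy'.trans hyx'
    have h1 := hM x y x' y' hy hyx hx1 hy' hyx' hx'1
    have h2 := cut_lip hθθ x x'
    rw [← hD] at h2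
    have hH := hHb hx1 hy
    have hH' := hHb hx'1 hy'
    have a1 := abs_nonneg (x - x')
    have a2 := abs_nonneg (y - y')
    have e : GG P θ c η x y - GG P θ c η x' y' = c * (x - x') +
        ((cut θ x - cut θ x') * (HH P θ x y + η - c * x) +
          cut θ x' * ((HH P θ x y - HH P θ x' y') - c * (x - x'))) := by
      unfold GG; ring
    rw [e]
    have t1 : |c * (x - x')| ≤ c * (|x - x'| + |y - y'|) := by
      rw [abs_mul, abs_of_pos hc0]
      exact mul_le_mul_of_nonneg_left (by linarith) hc0.le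
    have t2 : |(cut θ x - cut θ x') * (HH P θ x y + η - c * x)| ≤
        D * (V + η + c) * (|x - x'| + |y - y'|) := by
      rw [abs_mul]
      have b1 : |HH P θ x y + η - c * x| ≤ V + η + c := by
        rw [abs_le]
        have : c * x ≤ c * 1 := mul_le_mul_of_nonneg_left hx1 hc0.le
        have : 0 ≤ c * x := mul_nonneg hc0.le hx0
        constructor <;> linarith [hH.1, hH.2]
      calc |cut θ x - cut θ x'| * |HH P θ x y + η - c * x|
          ≤ (D * |x - x'|) * (V + η + c) :=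
            mul_le_mul h2 b1 (abs_nonneg _) (mul_nonneg hD0 a1)
        _ = D * (V + η + c) * |x - x'| := by ring
        _ ≤ D * (V + η + c) * (|x - x'| + |y - y'|) :=
            mul_le_mul_of_nonneg_left (by linarith) (by positivity)
    have t3 : |cut θ x' * ((HH P θ x y - HH P θ x' y') - c * (x - x'))| ≤
        (M + c) * (|x - x'| + |y - y'|) := by
      rw [abs_mul, abs_of_nonneg (cut_nonneg _ _)]
      have b1 : |(HH P θ x y - HH P θ x' y') - c * (x - x')| ≤ (M + c) * (|x - x'| + |y - y'|) := by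
        refine (abs_sub _ _).trans ?_
        rw [abs_mul, abs_of_pos hc0]
        have : c * |x - x'| ≤ c * (|x - x'| + |y - y'|) :=
          mul_le_mul_of_nonneg_left (by linarith) hc0.le
        linarith
      calc cut θ x' * |(HH P θ x y - HH P θ x' y') - c * (x - x')|
          ≤ 1 * |(HH P θ x y - HH P θ x' y') - c * (x - x')| :=
            mul_le_mul_of_nonneg_right (cut_le_one _ _) (abs_nonneg _)
        _ ≤ (M + c) * (|x - x'| + |y - y'|) := by rw [one_mul]; exact b1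
    have t4 := (abs_add_le (c * (x - x')) ((cut θ x - cut θ x') * (HH P θ x y + η - c * x) +
          cut θ x' * ((HH P θ x y - HH P θ x' y') - c * (x - x'))))
    have t5 := (abs_add_le ((cut θ x - cut θ x') * (HH P θ x y + η - c * x))
          (cut θ x' * ((HH P θ x y - HH P θ x' y') - c * (x - x'))))
    have e2 : (c + D * (V + η + c) + (M + c)) * (|x - x'| + |y - y'|) =
        c * (|x - x'| + |y - y'|) + D * (V + η + c) * (|x - x'| + |y - y'|) +
          (M + c) * (|x - x'| + |y - y'|) := by ring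
    rw [e2]
    linarith
  · -- smooth near 0
    refine ⟨θ, hθ, fun x _ => c * x, fun _ _ => c, fun _ _ => 0, c, ?_, ?_, ?_⟩
    · intro u v u0 v0 _ _ _ _ hu0 hu01 _ _
      refine ⟨?_, ?_, ?_, ?_⟩
      · rw [abs_of_nonneg (mul_nonneg hc0.le hu0)]
        nlinarith
      · rw [abs_of_pos hc0]
      · simp [hc0.le]
      · have : c * u - c * u0 - c * (u - u0) - 0 * (v - v0) = 0 := by ring
        rw [this, abs_zero]
        positivity
    · intro x x' y _ _ _ _ _ _
      simp only [sub_self, abs_zero]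
      exact ⟨by positivity, by positivity⟩
    · intro x y hy hyx hx
      unfold GG
      rw [cut_zero hθθ hx]
      ring
  · -- dynamics
    intro x y δ hy hyx hx1 hδ hδ1
    have hx0 : 0 ≤ x := hy.trans hyx
    set x' : ℝ := 2 * x - x ^ 2 + δ with hx'
    have hynd : 2 * y - y ^ 2 + (x - y) ^ 2 / 2 = yn x y := rfl
    rw [hynd]
    have hx'1 : x' ≤ 1 := by rw [hx']; nlinarith
    have hy'0 : 0 ≤ yn x y := yn_nonneg hy hyx hx1
    have hH' := hHb hx'1 hy'0
    have eG : ∀ u v : ℝ, GG P θ c η u v = (1 - cut θ u) * (c * u) + cut θ u * (HH P θ u v + η) :=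
      fun u v => by unfold GG; ring
    rcases lt_or_ge θ x with hxθ | hxθ
    · -- x > θ
      have hx'θ : 2 * θ - θ ^ 2 ≤ x' := by
        rw [hx']
        nlinarith
      have h1 : GG P θ c η x' (yn x y) = HH P θ x' (yn x y) + η := by
        rw [eG, cut_one hθθ hx'θ]; ring
      rw [h1]
      have hH := hHb hx1 hy
      have h2 : GG P θ c η x y ≤ HH P θ x y + η := by
        rw [eG]
        rcases le_total (2 * θ - θ ^ 2) x with h | h
        · rw [cut_one hθθ h]; linarith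
        · have h1 : c * x ≤ HH P θ x y + η := by
            have : c * x ≤ c * (2 * θ) :=
              mul_le_mul_of_nonneg_left (by nlinarith [sq_nonneg θ]) hc0.le
            nlinarith [hH.1]
          have a1 := cut_nonneg θ x
          have a2 := cut_le_one θ x
          have b1 : (1 - cut θ x) * (c * x) ≤ (1 - cut θ x) * (HH P θ x y + η) :=
            mul_le_mul_of_nonneg_left h1 (by linarith)
          linarith
      have h3 := key hp hP (hθ.trans hxθ) hy hyx hx1 hδ hδ1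
      have e1 : HH P θ x y = P x (rr x y) := by
        unfold HH
        rw [max_eq_left hxθ.le]
      have e2 : HH P θ x' (yn x y) = P x' (rr x' (yn x y)) := by
        unfold HH
        rw [max_eq_left (by nlinarith)]
      rw [e1] at h2
      rw [e2]
      rw [← hx'] at h3
      linarith
    · -- x ≤ θ
      have h1 : GG P θ c η x y = c * x := by
        rw [eG, cut_zero hθθ hxθ]; ring
      rw [h1]
      rcases le_total x' (2 * θ - θ ^ 2) with h | h
      · have h2 : c * x' ≤ GG P θ c η x' (yn x y) := by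
          rw [eG]
          have : c * x' ≤ HH P θ x' (yn x y) + η := by
            have : c * x' ≤ c * (2 * θ) :=
              mul_le_mul_of_nonneg_left (by nlinarith [sq_nonneg θ]) hc0.le
            nlinarith [hH'.1]
          have a1 := cut_nonneg θ x'
          have b1 : cut θ x' * (c * x') ≤ cut θ x' * (HH P θ x' (yn x y) + η) :=
            mul_le_mul_of_nonneg_left this a1
          linarith
        have h3 := hbd x y δ hy hyx hx1 hδ hδ1
        have h4 : L * (x + δ) ≤ c * (x' - x) := by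
          have e : x' - x = x * (1 - x) + δ := by rw [hx']; ring
          rw [e, hc]
          have : x * (1 / 2) ≤ x * (1 - x) := mul_le_mul_of_nonneg_left (by linarith) hx0
          nlinarith
        linarith
      · have h2 : GG P θ c η x' (yn x y) = HH P θ x' (yn x y) + η := by
          rw [eG, cut_one hθθ h]; ring
        rw [h2]
        have hx'θ : θ ≤ x' := by nlinarith
        have e2 : HH P θ x' (yn x y) = P x' (rr x' (yn x y)) := by
          unfold HH
          rw [max_eq_left hx'θ]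
        rw [e2]
        have hcx : c * x ≤ η := by
          have : c * x ≤ c * θ := mul_le_mul_of_nonneg_left hxθ hc0.le
          nlinarith
        rcases hx0.eq_or_lt with h0 | h0
        · have hy0 : y = 0 := le_antisymm (hyx.trans h0.symm.le) hy
          have hδ0 : 0 < δ := by
            have : x' = δ := by rw [hx', ← h0]; ring
            rw [← this]; linarith
          have h5 := key0 hP hδ0 (by rw [← h0] at hδ1; linarith)
          have e3 : x' = δ := by rw [hx', ← h0]; ring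
          rw [e3, hy0, ← h0]
          linarith
        · have h3 := key hp hP h0 hy hyx hx1 hδ hδ1
          rw [← hx'] at h3
          have h4 := hP.nonneg x (rr x y) hx0 hx1 (rr_nonneg hx0 hx1 hy) (rr_mul hx1)
          linarith

end Pool.Agent.Helper2.OC
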