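import Pool.Agent.Helper2.OD.IfaceR
import Pool.Agent.Helper49.OC2.T2

/-!
# The payoff of the certificate `T2` satisfies `PayOK`
-/

namespace Pool.Agent.Helper2.OC

/-- the payoff of T2 in closed form -/
noncomputable def payT2 (x y d : ℝ) : ℝ :=
  1 / 4 * (x - y) * (1 + (1 - x) + (1 - x) ^ 2 + (1 - x) ^ 3) +
    d * ((1 - x) ^ 2 / 4 + (1 - (x - y) / 2) ^ 2 / 2) - d ^ 2 / 4

theorem payOK_payT2 : PayOK payT2 := by
  refine ⟨?_, ⟨1, zero_le_one, ?_⟩⟩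
  · intro x y0 y δ h0 h1 h2 h3 _ hδ hδ1
    unfold payT2
    have ha : 0 ≤ 1 - x := by linarith
    have e : 1 / 4 * (x - y0) * (1 + (1 - x) + (1 - x) ^ 2 + (1 - x) ^ 3) +
        δ * ((1 - x) ^ 2 / 4 + (1 - (x - y0) / 2) ^ 2 / 2) - δ ^ 2 / 4 -
        (1 / 4 * (x - y) * (1 + (1 - x) + (1 - x) ^ 2 + (1 - x) ^ 3) +
        δ * ((1 - x) ^ 2 / 4 + (1 - (x - y) / 2) ^ 2 / 2) - δ ^ 2 / 4) =
        (y - y0) / 4 * ((1 + (1 - x) + (1 - x) ^ 2 + (1 - x) ^ 3) -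
          δ * (2 - (x - y) / 2 - (x - y0) / 2)) := by ring
    have h4 : δ * (2 - (x - y) / 2 - (x - y0) / 2) ≤ (1 - x) ^ 2 * 2 := by
      have : δ * (2 - (x - y) / 2 - (x - y0) / 2) ≤ δ * 2 :=
        mul_le_mul_of_nonneg_left (by linarith) hδ
      linarith
    have h5 : (1 - x) ^ 2 * 2 ≤ 1 + (1 - x) + (1 - x) ^ 2 + (1 - x) ^ 3 := by
      have : 0 ≤ (1 - x) ^ 3 := pow_nonneg ha 3
      nlinarith
    have : 0 ≤ (y - y0) / 4 * ((1 + (1 - x) + (1 - x) ^ 2 + (1 - x) ^ 3) -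
          δ * (2 - (x - y) / 2 - (x - y0) / 2)) := mul_nonneg (by linarith) (by linarith)
    linarith
  · intro x y δ h0 h1 h2 hδ hδ1
    unfold payT2
    have ha : 0 ≤ 1 - x := by linarith
    have ha1 : 1 - x ≤ 1 := by linarith
    have b1 : 1 / 4 * (x - y) * (1 + (1 - x) + (1 - x) ^ 2 + (1 - x) ^ 3) ≤ x := by
      have c1 : (1 - x) ^ 2 ≤ 1 := pow_le_one₀ ha ha1
      have c2 : (1 - x) ^ 3 ≤ 1 := pow_le_one₀ ha ha1
      have c3 : 1 / 4 * (x - y) * (1 + (1 - x) + (1 - x) ^ 2 + (1 - x) ^ 3) ≤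
          1 / 4 * (x - y) * 4 := mul_le_mul_of_nonneg_left (by linarith) (by linarith)
      linarith
    have b2 : δ * ((1 - x) ^ 2 / 4 + (1 - (x - y) / 2) ^ 2 / 2) ≤ δ * 1 := by
      refine mul_le_mul_of_nonneg_left ?_ hδ
      have c1 : (1 - x) ^ 2 ≤ 1 := pow_le_one₀ ha ha1
      have c2 : (1 - (x - y) / 2) ^ 2 ≤ 1 := pow_le_one₀ (by linarith) (by linarith)
      linarith
    have b3 : 0 ≤ δ ^ 2 / 4 := by positivity
    linarith

open Pool.Agent.Helper49.OC2 in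
theorem payoff_eq_payT2 : payoff gT2 LT2 (1 / 4) = payT2 := by
  funext x y d
  rw [payoff_T2]
  unfold payT2
  ring

open Pool.Agent.Helper49.OC2 in
theorem payOK_T2 : PayOK (payoff gT2 LT2 (1 / 4)) := by
  rw [payoff_eq_payT2]
  exact payOK_payT2

end Pool.Agent.Helper2.OC
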