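import Mathlib

/-!
Mazur-Ulam type lemmas for F-spaces.
-/

set_option autoImplicit false

open scoped ENNReal

namespace Pool.Agent.Helper22

/-- Abstract Mazur-Ulam argument for an extended translation invariant metric `rho` with a local
expansion property, and a bijection preserving `rho`. First step: maps fixing `a` and `b`. -/
theorem midpoint_fixed {X : Type*} [AddCommGroup X] [Module ℝ X] (rho : X → ℝ≥0∞)
    (hneg : ∀ v, rho (-v) = rho v) (hadd : ∀ v w, rho (v + w) ≤ rho v + rho w)
    (hzero : ∀ v, rho v = 0 → v = 0)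
    (k : ℝ≥0∞) (hk : 1 < k) (a b m : X) (hm : m + m = a + b) (hfin : rho (m - a) ≠ ⊤)
    (hexp : ∀ v, rho v ≤ 2 * rho (m - a) → k * rho v ≤ rho (v + v))
    (g : X ≃ X) (hg : ∀ x y, rho (g x - g y) = rho (x - y)) (ha : g a = a) (hb : g b = b) :
    g m = m := by
  classical
  let S : Set (X ≃ X) := {h | (∀ x y, rho (h x - h y) = rho (x - y)) ∧ h a = a ∧ h b = b}
  let s : ℝ≥0∞ := ⨆ h ∈ S, rho (h m - m)
  have hbound : ∀ h ∈ S, rho (h m - m) ≤ 2 * rho (m - a) := by
    intro h hh
    obtain ⟨h1, h2, h3⟩ := hh
    have e1 : h m - m = (h m - h a) + (-(m - a)) := by rw [h2]; abel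
    calc rho (h m - m) = rho ((h m - h a) + (-(m - a))) := by rw [← e1]
      _ ≤ rho (h m - h a) + rho (-(m - a)) := hadd _ _
      _ = 2 * rho (m - a) := by rw [h1, hneg, two_mul]
  have hsle : s ≤ 2 * rho (m - a) := by
    apply iSup₂_le
    intro h hh
    exact hbound h hh
  have hsfin : s ≠ ⊤ := by
    intro htop
    rw [htop] at hsle
    have : (2 : ℝ≥0∞) * rho (m - a) ≠ ⊤ := ENNReal.mul_ne_top (by norm_num) hfin
    exact this (top_le_iff.mp hsle)
  -- the reflection
  let sig : X ≃ X := Equiv.subLeft (a + b)
  have hsig : ∀ x, sig x = a + b - x := fun x => rfl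
  have hstep : ∀ h ∈ S, k * rho (h m - m) ≤ s := by
    intro h hh
    have hb' := hbound h hh
    obtain ⟨h1, h2, h3⟩ := hh
    have hsym : ∀ x y, rho (h.symm x - h.symm y) = rho (x - y) := by
      intro x y
      have := h1 (h.symm x) (h.symm y)
      rw [Equiv.apply_symm_apply, Equiv.apply_symm_apply] at this
      exact this.symm
    let h' : X ≃ X := ((h.trans sig).trans h.symm).trans sig
    have hh'app : ∀ x, h' x = a + b - h.symm (a + b - h x) := fun x => rfl
    have hmem : h' ∈ S := by
      refine ⟨?_, ?_, ?_⟩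
      · intro x y
        rw [hh'app, hh'app]
        have e1 : a + b - h.symm (a + b - h x) - (a + b - h.symm (a + b - h y))
            = -(h.symm (a + b - h x) - h.symm (a + b - h y)) := by abel
        rw [e1, hneg, hsym]
        have e2 : a + b - h x - (a + b - h y) = -(h x - h y) := by abel
        rw [e2, hneg, h1]
      · rw [hh'app, h2]
        have : h.symm (a + b - a) = b := by
          rw [add_sub_cancel_left]
          rw [Equiv.symm_apply_eq]; exact h3.symm
        rw [this]; abel
      · rw [hh'app, h3]
        have : h.symm (a + b - b) = a := by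
          rw [add_sub_cancel_right]
          rw [Equiv.symm_apply_eq]; exact h2.symm
        rw [this]; abel
    have hval : rho (h' m - m) = rho ((h m - m) + (h m - m)) := by
      rw [hh'app]
      have e1 : a + b - h.symm (a + b - h m) - m = -(h.symm (a + b - h m) - m) := by
        rw [← hm]; abel
      rw [e1, hneg]
      have e2 : rho (h.symm (a + b - h m) - m) = rho ((a + b - h m) - h m) := by
        have := h1 (h.symm (a + b - h m)) m
        rw [Equiv.apply_symm_apply] at this
        exact this.symm
      rw [e2]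
      have e3 : (a + b - h m) - h m = -((h m - m) + (h m - m)) := by
        rw [← hm]; abel
      rw [e3, hneg]
    calc k * rho (h m - m) ≤ rho ((h m - m) + (h m - m)) := hexp _ hb'
      _ = rho (h' m - m) := hval.symm
      _ ≤ s := le_iSup₂ (f := fun (h : X ≃ X) (_ : h ∈ S) => rho (h m - m)) h' hmem
  have hks : k * s ≤ s := by
    show k * (⨆ h ∈ S, rho (h m - m)) ≤ s
    rw [ENNReal.mul_iSup]
    apply iSup_le
    intro h
    rw [ENNReal.mul_iSup]
    apply iSup_le
    intro hh
    exact hstep h hh
  have hs0 : s = 0 := by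
    by_contra hne
    have hpos : 0 < s := pos_iff_ne_zero.mpr hne
    have : s < k * s := by
      calc s = 1 * s := (one_mul s).symm
        _ < k * s := by
          exact (ENNReal.mul_lt_mul_iff_left hne hsfin).mpr hk
    exact absurd hks (not_le.mpr this)
  have hgS : g ∈ S := ⟨hg, ha, hb⟩
  have : rho (g m - m) ≤ s := le_iSup₂ (f := fun (h : X ≃ X) (_ : h ∈ S) => rho (h m - m)) g hgS
  rw [hs0] at this
  have h0 : rho (g m - m) = 0 := le_antisymm this bot_le
  exact sub_eq_zero.mp (hzero _ h0)

/-- Abstract Mazur-Ulam argument: general version for self-bijections. -/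
theorem midpoint_preserved {X : Type*} [AddCommGroup X] [Module ℝ X] (rho : X → ℝ≥0∞)
    (hneg : ∀ v, rho (-v) = rho v) (hadd : ∀ v w, rho (v + w) ≤ rho v + rho w)
    (hzero : ∀ v, rho v = 0 → v = 0)
    (k : ℝ≥0∞) (hk : 1 < k) (a b m : X) (hm : m + m = a + b) (hfin : rho (m - a) ≠ ⊤)
    (hexp : ∀ v, rho v ≤ 2 * rho (m - a) → k * rho v ≤ rho (v + v))
    (g : X ≃ X) (hg : ∀ x y, rho (g x - g y) = rho (x - y)) :
    g m + g m = g a + g b := by
  have hsym : ∀ x y, rho (g.symm x - g.symm y) = rho (x - y) := by
    intro x y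
    have := hg (g.symm x) (g.symm y)
    rw [Equiv.apply_symm_apply, Equiv.apply_symm_apply] at this
    exact this.symm
  let h : X ≃ X := ((g.trans (Equiv.subLeft (g a + g b))).trans g.symm).trans
    (Equiv.subLeft (a + b))
  have happ : ∀ x, h x = a + b - g.symm (g a + g b - g x) := fun x => rfl
  have hiso : ∀ x y, rho (h x - h y) = rho (x - y) := by
    intro x y
    rw [happ, happ]
    have e1 : a + b - g.symm (g a + g b - g x) - (a + b - g.symm (g a + g b - g y))
        = -(g.symm (g a + g b - g x) - g.symm (g a + g b - g y)) := by abel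
    rw [e1, hneg, hsym]
    have e2 : g a + g b - g x - (g a + g b - g y) = -(g x - g y) := by abel
    rw [e2, hneg, hg]
  have h1 : h a = a := by
    rw [happ]
    have : g.symm (g a + g b - g a) = b := by
      rw [add_sub_cancel_left, Equiv.symm_apply_apply]
    rw [this]; abel
  have h2 : h b = b := by
    rw [happ]
    have : g.symm (g a + g b - g b) = a := by
      rw [add_sub_cancel_right, Equiv.symm_apply_apply]
    rw [this]; abel
  have hmid := midpoint_fixed rho hneg hadd hzero k hk a b m hm hfin hexp h hiso h1 h2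
  rw [happ] at hmid
  have e3 : g.symm (g a + g b - g m) = m := by
    have : g.symm (g a + g b - g m) = a + b - (a + b - g.symm (g a + g b - g m)) := by abel
    rw [this, hmid, ← hm]; abel
  rw [Equiv.symm_apply_eq] at e3
  have : g a + g b = (g a + g b - g m) + g m := by abel
  rw [this, e3]

end Pool.Agent.Helper22
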