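import Mathlib
import Pool.Agent.Helper22.MU

/-!
Reduction of the Mazur-Ulam problem for F-spaces to self-isometries.
-/

set_option autoImplicit false

open scoped ENNReal Topology

namespace Pool.Agent.Helper22

section Reduction

variable {E F : Type*} [NormedAddCommGroup E] [NormedAddCommGroup F] [Module ℝ F]
  [ContinuousSMul ℝ F]

/-- If every surjective self-isometry of `E` fixing zero is additive then every surjective isometry
from `E` onto a metric vector space `F` fixing zero is additive. -/
theorem additive_of_self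
    (hE : ∀ g : E → E, Isometry g → Function.Surjective g → g 0 = 0 →
      ∀ x y, g (x + y) = g x + g y)
    (f : E → F) (hf : Isometry f) (hs : Function.Surjective f) (h0 : f 0 = 0) :
    ∀ x y, f (x + y) = f x + f y := by
  let e : E ≃ F := Equiv.ofBijective f ⟨hf.injective, hs⟩
  have he : ∀ x, e x = f x := fun x => rfl
  have hde : ∀ x y : F, ‖e.symm x - e.symm y‖ = ‖x - y‖ := by
    intro x y
    have h1 := hf.dist_eq (e.symm x) (e.symm y)
    rw [← he, ← he, Equiv.apply_symm_apply, Equiv.apply_symm_apply] at h1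
    rw [← dist_eq_norm, ← dist_eq_norm]
    exact h1.symm
  have hdf : ∀ x y : E, ‖f x - f y‖ = ‖x - y‖ := by
    intro x y
    rw [← dist_eq_norm, ← dist_eq_norm]
    exact hf.dist_eq x y
  -- conjugated translations
  let c : F → E → E := fun w x => e.symm (f x + w)
  have hfc : ∀ w x, f (c w x) = f x + w := by
    intro w x
    rw [← he]
    exact Equiv.apply_symm_apply _ _
  have hcc : ∀ w w' x, c (w + w') x = c w (c w' x) := by
    intro w w' x
    apply hf.injective
    rw [hfc, hfc, hfc]
    abel
  have hcdist : ∀ w x, ‖c w x - x‖ = ‖w‖ := by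
    intro w x
    rw [← hdf, hfc]
    congr 1
    abel
  let k : F → E → E := fun w x => c w x - c w 0
  have hkiso : ∀ w, Isometry (k w) := by
    intro w
    apply Isometry.of_dist_eq
    intro x y
    rw [dist_eq_norm, dist_eq_norm]
    have : k w x - k w y = e.symm (f x + w) - e.symm (f y + w) := by
      show c w x - c w 0 - (c w y - c w 0) = _
      show e.symm (f x + w) - c w 0 - (e.symm (f y + w) - c w 0) = _
      abel
    rw [this, hde, ← hdf]
    congr 1
    abel
  have hksurj : ∀ w, Function.Surjective (k w) := by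
    intro w y
    refine ⟨e.symm (f (y + c w 0) - w), ?_⟩
    show c w (e.symm (f (y + c w 0) - w)) - c w 0 = y
    have : c w (e.symm (f (y + c w 0) - w)) = y + c w 0 := by
      apply hf.injective
      rw [hfc, ← he, Equiv.apply_symm_apply]
      abel
    rw [this]
    abel
  have hk0 : ∀ w, k w 0 = 0 := by
    intro w
    show c w 0 - c w 0 = 0
    exact sub_self _
  have hkadd : ∀ w x y, k w (x + y) = k w x + k w y := fun w =>
    hE (k w) (hkiso w) (hksurj w) (hk0 w)
  have hksub : ∀ w x y, k w (x - y) = k w x - k w y := by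
    intro w x y
    have h := hkadd w (x - y) y
    rw [sub_add_cancel] at h
    rw [h]
    abel
  have hkk : ∀ w w' x, k (w + w') x = k w (k w' x) := by
    intro w w' x
    have h1 : k w (k w' x) = k w (c w' x) - k w (c w' 0) := hksub w _ _
    rw [h1]
    show c (w + w') x - c (w + w') 0 = c w (c w' x) - c w 0 - (c w (c w' 0) - c w 0)
    rw [hcc, hcc]
    abel
  have hkdist : ∀ w x, ‖k w x - x‖ ≤ 2 * ‖w‖ := by
    intro w x
    have h1 : k w x - x = (c w x - x) - (c w 0 - 0) := by
      show c w x - c w 0 - x = _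
      abel
    rw [h1]
    calc ‖(c w x - x) - (c w 0 - 0)‖ ≤ ‖c w x - x‖ + ‖c w 0 - 0‖ := norm_sub_le _ _
      _ = 2 * ‖w‖ := by rw [hcdist, hcdist, two_mul]
  have hkiter : ∀ (n : ℕ) (w : F) (x : E), ∃ y, k ((n + 1) • w) x - x = k w y - y := by
    intro n
    induction n with
    | zero =>
      intro w x
      refine ⟨x, ?_⟩
      rw [zero_add, one_smul]
    | succ n ih =>
      intro w x
      obtain ⟨y, hy⟩ := ih w x
      refine ⟨k ((n + 1) • w) x + y, ?_⟩
      have h1 : (n + 1 + 1) • w = w + (n + 1) • w := by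
        rw [add_smul (n+1) 1 w, one_smul, add_comm]
      rw [h1, hkk, hkadd]
      have h2 : k w (k ((n + 1) • w) x) + k w y - (k ((n + 1) • w) x + y)
          = (k w (k ((n + 1) • w) x) - k ((n + 1) • w) x) + (k w y - y) := by abel
      rw [h2, ← hy]
      abel
  have hkid : ∀ w x, k w x = x := by
    intro w x
    have hle : ∀ n : ℕ, ‖k w x - x‖ ≤ 2 * ‖((1 : ℝ) / ((n : ℝ) + 1)) • w‖ := by
      intro n
      have hw : (n + 1) • (((1 : ℝ) / ((n : ℝ) + 1)) • w) = w := by
        rw [← Nat.cast_smul_eq_nsmul ℝ, smul_smul]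
        have hne : ((n : ℝ) + 1) ≠ 0 := by positivity
        have : ((n + 1 : ℕ) : ℝ) * ((1 : ℝ) / ((n : ℝ) + 1)) = 1 := by
          push_cast
          field_simp
        rw [this, one_smul]
      obtain ⟨y, hy⟩ := hkiter n (((1 : ℝ) / ((n : ℝ) + 1)) • w) x
      rw [hw] at hy
      rw [hy]
      exact hkdist _ _
    have hlim : Filter.Tendsto (fun n : ℕ => 2 * ‖((1 : ℝ) / ((n : ℝ) + 1)) • w‖)
        Filter.atTop (𝓝 (2 * ‖(0 : ℝ) • w‖)) := by
      apply Filter.Tendsto.const_mul
      apply Filter.Tendsto.norm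
      exact Filter.Tendsto.smul_const (tendsto_one_div_add_atTop_nhds_zero_nat (𝕜 := ℝ)) w
    rw [zero_smul, norm_zero, mul_zero] at hlim
    have : ‖k w x - x‖ ≤ 0 := ge_of_tendsto' hlim hle
    have h2 : ‖k w x - x‖ = 0 := le_antisymm this (norm_nonneg _)
    exact sub_eq_zero.mp (norm_eq_zero.mp h2)
  intro x y
  have h1 := hkid (f y) x
  have h2 : c (f y) x = x + c (f y) 0 := by
    have : c (f y) x - c (f y) 0 = x := h1
    exact sub_eq_iff_eq_add.mp this
  have h3 : c (f y) 0 = y := by
    apply hf.injective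
    rw [hfc, h0, zero_add]
  rw [h3] at h2
  rw [← h2, hfc]

end Reduction

section Linear

variable {E F : Type*} [NormedAddCommGroup E] [Module ℝ E] [ContinuousSMul ℝ E]
  [NormedAddCommGroup F] [Module ℝ F] [ContinuousSMul ℝ F]

theorem linear_of_additive (f : E → F) (hf : Isometry f)
    (hadd : ∀ x y, f (x + y) = f x + f y) : ∃ g : E →ₗ[ℝ] F, ∀ x, g x = f x := by
  let A : E →+ F := AddMonoidHom.mk' f hadd
  have hc : Continuous A := hf.continuous
  exact ⟨(A.toRealLinearMap hc : E →ₗ[ℝ] F), fun x => rfl⟩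

end Linear

section Jensen

variable {E F : Type*} [NormedAddCommGroup E] [Module ℝ E] [NormedAddCommGroup F]

/-- Local Jensen equation implies global affinity. -/
theorem affine_of_local [ContinuousSMul ℝ E] (g : E → F) (δ : ℝ) (hδ : 0 < δ)
    (h : ∀ x u, ‖u‖ ≤ δ → g (x + u) + g (x - u) = g x + g x) :
    ∀ x y, g (x + y) = g x + g y - g 0 := by
  -- small vectors
  have hsmall : ∀ (v : E) (ε : ℝ), 0 < ε → ∃ n : ℕ, ‖((1 : ℝ) / ((n : ℝ) + 1)) • v‖ ≤ ε := by
    intro v ε hε
    have hlim : Filter.Tendsto (fun n : ℕ => ‖((1 : ℝ) / ((n : ℝ) + 1)) • v‖)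
        Filter.atTop (𝓝 (‖(0 : ℝ) • v‖)) := by
      apply Filter.Tendsto.norm
      exact Filter.Tendsto.smul_const (tendsto_one_div_add_atTop_nhds_zero_nat (𝕜 := ℝ)) v
    rw [zero_smul, norm_zero] at hlim
    obtain ⟨n, hn⟩ := (hlim.eventually (gt_mem_nhds hε)).exists
    exact ⟨n, hn.le⟩
  have hn : ∀ (n : ℕ) (v : E), (n + 1) • (((1 : ℝ) / ((n : ℝ) + 1)) • v) = v := by
    intro n v
    rw [← Nat.cast_smul_eq_nsmul ℝ, smul_smul]
    have hne : ((n : ℝ) + 1) ≠ 0 := by positivity
    have : ((n + 1 : ℕ) : ℝ) * ((1 : ℝ) / ((n : ℝ) + 1)) = 1 := by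
      push_cast
      field_simp
    rw [this, one_smul]
  -- parallelogram step for halves: write u = p + p, v = q + q
  have hpar : ∀ x p q : E, ‖p‖ ≤ δ / 2 → ‖q‖ ≤ δ / 2 →
      g (x + (p + p) + (q + q)) - g (x + (p + p)) = g (x + (q + q)) - g x := by
    intro x p q hp hq
    have h1 : ‖p + q‖ ≤ δ := (norm_add_le _ _).trans (by linarith)
    have h2 : ‖p - q‖ ≤ δ := (norm_sub_le _ _).trans (by linarith)
    have e1 := h (x + p + q) (p + q) h1
    have e2 := h (x + p + q) (p - q) h2
    have a1 : x + p + q + (p + q) = x + (p + p) + (q + q) := by abel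
    have a2 : x + p + q - (p + q) = x := by abel
    have a3 : x + p + q + (p - q) = x + (p + p) := by abel
    have a4 : x + p + q - (p - q) = x + (q + q) := by abel
    rw [a1, a2] at e1
    rw [a3, a4] at e2
    rw [sub_eq_sub_iff_add_eq_add, e1, ← e2]
    abel
  -- D_{2q} is constant for small q
  have hconst : ∀ (q : E), ‖q‖ ≤ δ / 2 → ∀ x, g (x + (q + q)) - g x = g (q + q) - g 0 := by
    intro q hq x
    -- chain from 0 to x with steps 2p
    obtain ⟨n, hnn⟩ := hsmall ((1 / 2 : ℝ) • x) (δ / 2) (by linarith)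
    set p : E := ((1 : ℝ) / ((n : ℝ) + 1)) • ((1 / 2 : ℝ) • x) with hpdef
    have hpx : (n + 1) • (p + p) = x := by
      rw [smul_add, hn, ← add_smul]
      norm_num
    have hchain : ∀ j : ℕ, g (j • (p + p) + (q + q)) - g (j • (p + p)) = g (q + q) - g 0 := by
      intro j
      induction j with
      | zero => rw [zero_smul, zero_add]
      | succ j ih =>
        have := hpar (j • (p + p)) p q hnn hq
        rw [add_smul, one_smul, this, ih]
    have := hchain (n + 1)
    rw [hpx] at this
    exact this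
  intro x y
  obtain ⟨n, hnn⟩ := hsmall ((1 / 2 : ℝ) • y) (δ / 2) (by linarith)
  set q : E := ((1 : ℝ) / ((n : ℝ) + 1)) • ((1 / 2 : ℝ) • y) with hqdef
  have hqy : (n + 1) • (q + q) = y := by
    rw [smul_add, hn, ← add_smul]
    norm_num
  have hchain : ∀ (z : E) (j : ℕ), g (z + j • (q + q)) - g z = j • (g (q + q) - g 0) := by
    intro z j
    induction j with
    | zero => rw [zero_smul, zero_smul, add_zero, sub_self]
    | succ j ih =>
      have h1 := hconst q hnn (z + j • (q + q))
      rw [add_smul, one_smul, add_smul, one_smul, ← ih, ← h1, ← add_assoc]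
      abel
  have h1 := hchain x (n + 1)
  have h2 := hchain 0 (n + 1)
  rw [hqy] at h1 h2
  rw [zero_add] at h2
  rw [← h2] at h1
  have : g (x + y) = g x + (g (x + y) - g x) := by abel
  rw [this, h1]
  abel

/-- Jensen equation along a dense divisible subgroup implies affinity. -/
theorem affine_of_dense (g : E → F) (hg : Continuous g) (A : Set E) (hA : Dense A)
    (hAadd : ∀ u ∈ A, ∀ v ∈ A, u + v ∈ A) (hAneg : ∀ u ∈ A, -u ∈ A)
    (hAhalf : ∀ u ∈ A, ∃ p ∈ A, p + p = u)
    (h : ∀ x, ∀ u ∈ A, g (x + u) + g (x - u) = g x + g x) :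
    ∀ x y, g (x + y) = g x + g y - g 0 := by
  have hpar : ∀ x, ∀ u ∈ A, ∀ v ∈ A, g (x + u + v) - g (x + u) = g (x + v) - g x := by
    intro x u hu v hv
    obtain ⟨p, hp, hpu⟩ := hAhalf u hu
    obtain ⟨q, hq, hqv⟩ := hAhalf v hv
    have e1 := h (x + p + q) (p + q) (hAadd p hp q hq)
    have e2 := h (x + p + q) (p + -q) (hAadd p hp (-q) (hAneg q hq))
    have a1 : x + p + q + (p + q) = x + u + v := by rw [← hpu, ← hqv]; abel
    have a2 : x + p + q - (p + q) = x := by abel
    have a3 : x + p + q + (p + -q) = x + u := by rw [← hpu]; abel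
    have a4 : x + p + q - (p + -q) = x + v := by rw [← hqv]; abel
    rw [a1, a2] at e1
    rw [a3, a4] at e2
    rw [sub_eq_sub_iff_add_eq_add, e1, ← e2]
    abel
  have hstep : ∀ y, ∀ v ∈ A, g (y + v) - g y = g v - g 0 := by
    intro y v hv
    have hcl : IsClosed {u : E | g (u + v) - g u = g v - g 0} := by
      apply isClosed_eq
      · exact (hg.comp (continuous_id.add continuous_const)).sub hg
      · exact continuous_const
    have hsub : A ⊆ {u : E | g (u + v) - g u = g v - g 0} := by
      intro u hu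
      have := hpar 0 u hu v hv
      rw [zero_add, zero_add] at this
      exact this
    have : closure A ⊆ {u : E | g (u + v) - g u = g v - g 0} := closure_minimal hsub hcl
    exact this (hA y)
  intro x y
  have hcl : IsClosed {v : E | g (x + v) - g x = g v - g 0} := by
    apply isClosed_eq
    · exact (hg.comp (continuous_const.add continuous_id)).sub continuous_const
    · exact hg.sub continuous_const
  have : closure A ⊆ {v : E | g (x + v) - g x = g v - g 0} :=
    closure_minimal (fun v hv => hstep x v hv) hcl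
  have h1 : g (x + y) - g x = g y - g 0 := this (hA y)
  have : g (x + y) = g x + (g (x + y) - g x) := by abel
  rw [this, h1]
  abel

end Jensen

end Pool.Agent.Helper22
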