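import Mathlib
import Pool.Agent.Helper22.FSpace

/-!
The doubling step in the Mazur-Ulam argument, for arbitrary isometry-invariant functions, and
three criteria for additivity of surjective self-isometries.
-/

set_option autoImplicit false

open scoped ENNReal Topology

namespace Pool.Agent.Helper22

section Step

variable {E : Type*} [NormedAddCommGroup E]

/-- `v` and `w` are difference vectors which correspond under some bijective isometry. -/
def VecEquiv (v w : E) : Prop :=
  ∃ (k : E ≃ E) (x y : E), Isometry k ∧ x - y = v ∧ k x - k y = w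

theorem VecEquiv.norm_eq {v w : E} (h : VecEquiv v w) : ‖v‖ = ‖w‖ := by
  obtain ⟨k, x, y, hk, rfl, rfl⟩ := h
  rw [← dist_eq_norm, ← dist_eq_norm, hk.dist_eq]

theorem isometry_symm' (k : E ≃ E) (hk : Isometry k) : Isometry k.symm := by
  apply Isometry.of_dist_eq
  intro a b
  have := hk.dist_eq (k.symm a) (k.symm b)
  rw [Equiv.apply_symm_apply, Equiv.apply_symm_apply] at this
  exact this.symm

theorem VecEquiv.symm {v w : E} (h : VecEquiv v w) : VecEquiv w v := by
  obtain ⟨k, x, y, hk, rfl, rfl⟩ := h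
  exact ⟨k.symm, k x, k y, isometry_symm' k hk, rfl, by simp⟩

theorem VecEquiv.of_isometry (k : E ≃ E) (hk : Isometry k) (x y : E) :
    VecEquiv (x - y) (k x - k y) := ⟨k, x, y, hk, rfl, rfl⟩

/-- The doubling step. -/
theorem double_step (a b m : E) (hm : m + m = a + b) (h : E ≃ E) (hi : Isometry h)
    (ha : h a = a) (hb : h b = b) :
    ∃ h' : E ≃ E, Isometry h' ∧ h' a = a ∧ h' b = b ∧
      VecEquiv (h' m - m) ((h m - m) + (h m - m)) := by
  have hdist : ∀ x y, ‖h x - h y‖ = ‖x - y‖ := by
    intro x y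
    rw [← dist_eq_norm, ← dist_eq_norm, hi.dist_eq]
  have hsym := isometry_symm' h hi
  have hsdist : ∀ x y, ‖h.symm x - h.symm y‖ = ‖x - y‖ := by
    intro x y
    rw [← dist_eq_norm, ← dist_eq_norm, hsym.dist_eq]
  let h' : E ≃ E := ((h.trans (Equiv.subLeft (a + b))).trans h.symm).trans
    (Equiv.subLeft (a + b))
  have happ : ∀ x, h' x = a + b - h.symm (a + b - h x) := fun x => rfl
  refine ⟨h', ?_, ?_, ?_, ?_⟩
  · apply Isometry.of_dist_eq
    intro x y
    rw [dist_eq_norm, dist_eq_norm, happ, happ]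
    have e1 : a + b - h.symm (a + b - h x) - (a + b - h.symm (a + b - h y))
        = -(h.symm (a + b - h x) - h.symm (a + b - h y)) := by abel
    rw [e1, norm_neg, hsdist]
    have e2 : a + b - h x - (a + b - h y) = -(h x - h y) := by abel
    rw [e2, norm_neg, hdist]
  · rw [happ, ha]
    have : h.symm (a + b - a) = b := by
      rw [add_sub_cancel_left, Equiv.symm_apply_eq]; exact hb.symm
    rw [this]; abel
  · rw [happ, hb]
    have : h.symm (a + b - b) = a := by
      rw [add_sub_cancel_right, Equiv.symm_apply_eq]; exact ha.symm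
    rw [this]; abel
  · -- the isometry `h` conjugated by the reflection
    refine ⟨((Equiv.subLeft (a + b)).trans h).trans (Equiv.subLeft (a + b)), h' m, m, ?_, rfl, ?_⟩
    · apply Isometry.of_dist_eq
      intro x y
      rw [dist_eq_norm, dist_eq_norm]
      show ‖a + b - h (a + b - x) - (a + b - h (a + b - y))‖ = _
      have e0 : a + b - h (a + b - x) - (a + b - h (a + b - y))
          = -(h (a + b - x) - h (a + b - y)) := by abel
      rw [e0, norm_neg, hdist]
      have : a + b - x - (a + b - y) = -(x - y) := by abel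
      rw [this, norm_neg]
    · show a + b - h (a + b - h' m) - (a + b - h (a + b - m)) = _
      rw [happ]
      have e1 : a + b - (a + b - h.symm (a + b - h m)) = h.symm (a + b - h m) := by abel
      rw [e1, Equiv.apply_symm_apply]
      have e2 : a + b - m = m := by rw [← hm]; abel
      rw [e2, ← hm]
      abel

/-- Reduction of a general bijective isometry to one fixing `a` and `b`. -/
theorem first_step (a b m : E) (hm : m + m = a + b) (g : E ≃ E) (hi : Isometry g) :
    ∃ h : E ≃ E, Isometry h ∧ h a = a ∧ h b = b ∧ (h m = m → g m + g m = g a + g b) := by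
  have hdist : ∀ x y, ‖g x - g y‖ = ‖x - y‖ := by
    intro x y
    rw [← dist_eq_norm, ← dist_eq_norm, hi.dist_eq]
  have hsym := isometry_symm' g hi
  have hsdist : ∀ x y, ‖g.symm x - g.symm y‖ = ‖x - y‖ := by
    intro x y
    rw [← dist_eq_norm, ← dist_eq_norm, hsym.dist_eq]
  let h : E ≃ E := ((g.trans (Equiv.subLeft (g a + g b))).trans g.symm).trans
    (Equiv.subLeft (a + b))
  have happ : ∀ x, h x = a + b - g.symm (g a + g b - g x) := fun x => rfl
  refine ⟨h, ?_, ?_, ?_, ?_⟩
  · apply Isometry.of_dist_eq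
    intro x y
    rw [dist_eq_norm, dist_eq_norm, happ, happ]
    have e1 : a + b - g.symm (g a + g b - g x) - (a + b - g.symm (g a + g b - g y))
        = -(g.symm (g a + g b - g x) - g.symm (g a + g b - g y)) := by abel
    rw [e1, norm_neg, hsdist]
    have e2 : g a + g b - g x - (g a + g b - g y) = -(g x - g y) := by abel
    rw [e2, norm_neg, hdist]
  · rw [happ]
    have : g.symm (g a + g b - g a) = b := by
      rw [add_sub_cancel_left, Equiv.symm_apply_apply]
    rw [this]; abel
  · rw [happ]
    have : g.symm (g a + g b - g b) = a := by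
      rw [add_sub_cancel_right, Equiv.symm_apply_apply]
    rw [this]; abel
  · intro hmid
    rw [happ] at hmid
    have e3 : g.symm (g a + g b - g m) = m := by
      have : g.symm (g a + g b - g m) = a + b - (a + b - g.symm (g a + g b - g m)) := by abel
      rw [this, hmid, ← hm]; abel
    rw [Equiv.symm_apply_eq] at e3
    have : g a + g b = (g a + g b - g m) + g m := by abel
    rw [this, e3]

end Step

section NonSaturation

variable {E : Type*} [NormedAddCommGroup E]

/-- `u` is a non-saturation vector: displacements `Δ` with `‖u + Δ‖ = ‖u - Δ‖ = ‖u‖` which are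
bounded away from zero increase their length under doubling by a definite amount. -/
def NonSat (u : E) : Prop :=
  ∀ lam : ℝ, 0 < lam → ∃ ε : ℝ, 0 < ε ∧ ∀ d : E, ‖u + d‖ = ‖u‖ → ‖u - d‖ = ‖u‖ → lam ≤ ‖d‖ →
    ‖d‖ + ε ≤ ‖d + d‖

/-- Bijective isometries preserve the midpoint of `x + u` and `x - u` if `u` is a non-saturation
vector. -/
theorem jensen_of_nonSat (u : E) (hu : NonSat u) (g : E ≃ E) (hi : Isometry g) (x : E) :
    g (x + u) + g (x - u) = g x + g x := by
  obtain ⟨h, hh1, hh2, hh3, hh4⟩ := first_step (x + u) (x - u) x (by abel) g hi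
  refine (hh4 ?_).symm
  -- the set of displacements
  let S : Set ℝ := {r | ∃ h : E ≃ E, Isometry h ∧ h (x + u) = x + u ∧ h (x - u) = x - u ∧
    r = ‖h x - x‖}
  have hcon : ∀ h : E ≃ E, Isometry h → h (x + u) = x + u → h (x - u) = x - u →
      ‖u + (h x - x)‖ = ‖u‖ ∧ ‖u - (h x - x)‖ = ‖u‖ := by
    intro h h1 h2 h3
    have hdist : ∀ x y, ‖h x - h y‖ = ‖x - y‖ := by
      intro x y
      rw [← dist_eq_norm, ← dist_eq_norm, h1.dist_eq]
    constructor
    · have : u + (h x - x) = h x - h (x - u) := by rw [h3]; abel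
      rw [this, hdist]
      congr 1
      abel
    · have : u - (h x - x) = -(h x - h (x + u)) := by rw [h2]; abel
      rw [this, norm_neg, hdist]
      have : x - (x + u) = -u := by abel
      rw [this, norm_neg]
  have hbdd : ∀ r ∈ S, r ≤ 2 * ‖u‖ := by
    rintro r ⟨h, h1, h2, h3, rfl⟩
    obtain ⟨c1, c2⟩ := hcon h h1 h2 h3
    have : h x - x = (u + (h x - x)) - u := by abel
    rw [this]
    calc ‖(u + (h x - x)) - u‖ ≤ ‖u + (h x - x)‖ + ‖u‖ := norm_sub_le _ _
      _ = 2 * ‖u‖ := by rw [c1]; ring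
  have hne : S.Nonempty := ⟨‖h x - x‖, h, hh1, hh2, hh3, rfl⟩
  have hB : BddAbove S := ⟨2 * ‖u‖, hbdd⟩
  have hle : ∀ r ∈ S, r ≤ sSup S := fun r hr => le_csSup hB hr
  by_contra hne'
  have hpos : 0 < ‖h x - x‖ := by
    rw [norm_pos_iff, sub_ne_zero]
    exact hne'
  have hsup : ‖h x - x‖ ≤ sSup S := hle _ ⟨h, hh1, hh2, hh3, rfl⟩
  have hspos : 0 < sSup S := hpos.trans_le hsup
  obtain ⟨ε, hε, hq⟩ := hu (sSup S / 2) (by linarith)
  obtain ⟨r, ⟨h1, hi1, ha1, hb1, rfl⟩, hr⟩ :=
    exists_lt_of_lt_csSup hne (show sSup S - min (ε / 2) (sSup S / 2) < sSup S by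
      have : 0 < min (ε / 2) (sSup S / 2) := lt_min (by linarith) (by linarith)
      linarith)
  obtain ⟨c1, c2⟩ := hcon h1 hi1 ha1 hb1
  have hbig : sSup S / 2 ≤ ‖h1 x - x‖ := by
    have : min (ε / 2) (sSup S / 2) ≤ sSup S / 2 := min_le_right _ _
    linarith
  have hd := hq (h1 x - x) c1 c2 hbig
  obtain ⟨h2, hi2, ha2, hb2, hv⟩ := double_step (x + u) (x - u) x (by abel) h1 hi1 ha1 hb1
  have h3 : ‖h2 x - x‖ ≤ sSup S := hle _ ⟨h2, hi2, ha2, hb2, rfl⟩
  rw [hv.norm_eq] at h3
  have : min (ε / 2) (sSup S / 2) ≤ ε / 2 := min_le_left _ _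
  linarith

end NonSaturation

section Sumset

variable {E : Type*} [NormedAddCommGroup E]

/-- The `n`-fold sumset of the closed ball of radius `s` around zero. -/
def NBall (s : ℝ) (n : ℕ) : Set E :=
  {v | ∃ l : List E, l.length = n ∧ (∀ w ∈ l, ‖w‖ ≤ s) ∧ l.sum = v}

theorem nball_map (g : E → E) (hg : Isometry g) (s : ℝ) (n : ℕ) (x y : E)
    (h : x - y ∈ NBall s n) : g x - g y ∈ NBall s n := by
  obtain ⟨l, hl1, hl2, hl3⟩ := h
  have key : ∀ (l : List E) (y : E), ∃ l' : List E, l'.length = l.length ∧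
      l'.sum = g (y + l.sum) - g y ∧ l'.map (fun w => ‖w‖) = l.map (fun w => ‖w‖) := by
    intro l
    induction l with
    | nil => intro y; exact ⟨[], by simp⟩
    | cons a l ih =>
      intro y
      obtain ⟨l', h0, h1, h2⟩ := ih (y + a)
      refine ⟨(g (y + a) - g y) :: l', ?_, ?_, ?_⟩
      · rw [List.length_cons, List.length_cons, h0]
      · rw [List.sum_cons, h1, List.sum_cons, add_assoc]
        abel
      · rw [List.map_cons, List.map_cons, h2]
        congr 1
        rw [← dist_eq_norm, hg.dist_eq, dist_eq_norm]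
        congr 1
        abel
  obtain ⟨l', h0, h1, h2⟩ := key l y
  refine ⟨l', h0.trans hl1, ?_, ?_⟩
  · intro w hw
    have : ‖w‖ ∈ l'.map (fun w => ‖w‖) := List.mem_map.mpr ⟨w, hw, rfl⟩
    rw [h2] at this
    obtain ⟨w', hw', hww⟩ := List.mem_map.mp this
    rw [← hww]
    exact hl2 w' hw'
  · rw [h1, hl3]
    congr 1
    congr 1
    abel

theorem VecEquiv.mem_nball {v w : E} (h : VecEquiv v w) (s : ℝ) (n : ℕ) (hv : v ∈ NBall s n) :
    w ∈ NBall s n := by
  obtain ⟨k, x, y, hk, rfl, rfl⟩ := h
  exact nball_map k hk s n x y hv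

theorem nball_neg {s : ℝ} {n : ℕ} {v : E} (h : v ∈ NBall s n) : -v ∈ NBall s n := by
  obtain ⟨l, hl1, hl2, hl3⟩ := h
  refine ⟨l.map (fun w => -w), ?_, ?_, ?_⟩
  · rw [List.length_map, hl1]
  · intro w hw
    obtain ⟨w', hw', rfl⟩ := List.mem_map.mp hw
    rw [norm_neg]
    exact hl2 w' hw'
  · rw [← hl3]
    clear hl1 hl2 hl3
    induction l with
    | nil => simp
    | cons a l ih => rw [List.map_cons, List.sum_cons, List.sum_cons, ih]; abel

theorem nball_add {s : ℝ} {n k : ℕ} {v w : E} (hv : v ∈ NBall s n) (hw : w ∈ NBall s k) :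
    v + w ∈ NBall s (n + k) := by
  obtain ⟨l, hl1, hl2, hl3⟩ := hv
  obtain ⟨l', hl1', hl2', hl3'⟩ := hw
  refine ⟨l ++ l', ?_, ?_, ?_⟩
  · rw [List.length_append, hl1, hl1']
  · intro u hu
    rcases List.mem_append.mp hu with h | h
    · exact hl2 u h
    · exact hl2' u h
  · rw [List.sum_append, hl3, hl3']

theorem mem_nball_one {s : ℝ} {v : E} : v ∈ NBall s 1 ↔ ‖v‖ ≤ s := by
  constructor
  · rintro ⟨l, hl1, hl2, hl3⟩
    obtain ⟨a, rfl⟩ := List.length_eq_one_iff.mp hl1
    rw [List.sum_singleton] at hl3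
    rw [← hl3]
    exact hl2 a (by simp)
  · intro h
    exact ⟨[v], rfl, by simpa using h, by simp⟩

end Sumset

section Convex

variable {E : Type*} [NormedAddCommGroup E] [Module ℝ E]

theorem exists_nball [ContinuousSMul ℝ E] (s : ℝ) (hs : 0 < s) (v : E) :
    ∃ n : ℕ, v ∈ NBall s (n + 1) := by
  have hlim : Filter.Tendsto (fun n : ℕ => ‖((1 : ℝ) / ((n : ℝ) + 1)) • v‖)
      Filter.atTop (𝓝 (‖(0 : ℝ) • v‖)) := by
    apply Filter.Tendsto.norm
    exact Filter.Tendsto.smul_const (tendsto_one_div_add_atTop_nhds_zero_nat (𝕜 := ℝ)) v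
  rw [zero_smul, norm_zero] at hlim
  obtain ⟨n, hn⟩ := (hlim.eventually (gt_mem_nhds hs)).exists
  refine ⟨n, List.replicate (n + 1) (((1 : ℝ) / ((n : ℝ) + 1)) • v), ?_, ?_, ?_⟩
  · exact List.length_replicate
  · intro w hw
    rw [List.eq_of_mem_replicate hw]
    exact hn.le
  · rw [List.sum_replicate, ← Nat.cast_smul_eq_nsmul ℝ, smul_smul]
    have hne : ((n : ℝ) + 1) ≠ 0 := by positivity
    have : ((n + 1 : ℕ) : ℝ) * ((1 : ℝ) / ((n : ℝ) + 1)) = 1 := by
      push_cast
      field_simp
    rw [this, one_smul]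

/-- For a convex ball the `n`-fold sumset is the `n`-fold dilate. -/
theorem nball_convex (s : ℝ) (hc : Convex ℝ {v : E | ‖v‖ ≤ s}) (hs : 0 ≤ s) (n : ℕ) (v : E) :
    v ∈ NBall s (n + 1) ↔ ‖((1 : ℝ) / ((n : ℝ) + 1)) • v‖ ≤ s := by
  constructor
  · rintro ⟨l, hl1, hl2, hl3⟩
    have key : ∀ (n : ℕ) (l : List E), l.length = n + 1 → (∀ w ∈ l, ‖w‖ ≤ s) →
        ((1 : ℝ) / ((n : ℝ) + 1)) • l.sum ∈ {v : E | ‖v‖ ≤ s} := by
      intro n
      induction n with
      | zero =>
        intro l hl hw
        obtain ⟨a, rfl⟩ := List.length_eq_one_iff.mp (by simpa using hl)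
        simpa using hw a (by simp)
      | succ n ih =>
        intro l hl hw
        match l, hl, hw with
        | a :: l, hl, hw =>
          have h1 : l.length = n + 1 := by simpa using hl
          have h2 := ih l h1 (fun w hw' => hw w (by simp [hw']))
          have h3 : a ∈ {v : E | ‖v‖ ≤ s} := hw a (by simp)
          have hn2 : (0 : ℝ) < (n : ℝ) + 2 := by positivity
          have hn1 : (0 : ℝ) < (n : ℝ) + 1 := by positivity
          have h4 := hc h3 h2 (a := 1 / ((n : ℝ) + 2)) (b := ((n : ℝ) + 1) / ((n : ℝ) + 2))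
            (by positivity) (by positivity) (by field_simp; ring)
          have h5 : (1 / ((n : ℝ) + 2)) • a +
              (((n : ℝ) + 1) / ((n : ℝ) + 2)) • (((1 : ℝ) / ((n : ℝ) + 1)) • l.sum)
              = ((1 : ℝ) / (((n + 1 : ℕ) : ℝ) + 1)) • (a :: l).sum := by
            rw [List.sum_cons, smul_add, smul_smul]
            have e1 : ((n : ℝ) + 1) / ((n : ℝ) + 2) * ((1 : ℝ) / ((n : ℝ) + 1))
                = (1 : ℝ) / (((n + 1 : ℕ) : ℝ) + 1) := by
              push_cast
              field_simp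
              ring
            have e2 : (1 / ((n : ℝ) + 2)) = (1 : ℝ) / (((n + 1 : ℕ) : ℝ) + 1) := by
              push_cast
              ring
            rw [e1, e2]
          rw [h5] at h4
          exact h4
    have := key n l hl1 hl2
    rw [hl3] at this
    exact this
  · intro h
    refine ⟨List.replicate (n + 1) (((1 : ℝ) / ((n : ℝ) + 1)) • v), ?_, ?_, ?_⟩
    · exact List.length_replicate
    · intro w hw
      rw [List.eq_of_mem_replicate hw]
      exact h
    · rw [List.sum_replicate, ← Nat.cast_smul_eq_nsmul ℝ, smul_smul]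
      have hne : ((n : ℝ) + 1) ≠ 0 := by positivity
      have : ((n + 1 : ℕ) : ℝ) * ((1 : ℝ) / ((n : ℝ) + 1)) = 1 := by
        push_cast
        field_simp
      rw [this, one_smul]

/-- Monotonicity of the dilates of a convex symmetric ball. -/
theorem convex_ball_smul (s : ℝ) (hc : Convex ℝ {v : E | ‖v‖ ≤ s}) (hs : 0 ≤ s) (v : E)
    (hv : ‖v‖ ≤ s) (t : ℝ) (ht0 : 0 ≤ t) (ht1 : t ≤ 1) : ‖t • v‖ ≤ s := by
  have h0 : (0 : E) ∈ {v : E | ‖v‖ ≤ s} := by simpa using hs
  have h1 : v ∈ {v : E | ‖v‖ ≤ s} := hv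
  have := hc h1 h0 ht0 (by linarith : 0 ≤ 1 - t) (by ring)
  rw [smul_zero, add_zero] at this
  exact this

/-- Bijective isometries preserve midpoints if there are arbitrarily small convex balls. -/
theorem jensen_of_convex [ContinuousSMul ℝ E]
    (hc : ∀ ε : ℝ, 0 < ε → ∃ s : ℝ, 0 < s ∧ s ≤ ε ∧ Convex ℝ {v : E | ‖v‖ ≤ s})
    (g : E ≃ E) (hi : Isometry g) (x u : E) :
    g (x + u) + g (x - u) = g x + g x := by
  obtain ⟨h, hh1, hh2, hh3, hh4⟩ := first_step (x + u) (x - u) x (by abel) g hi
  refine (hh4 ?_).symm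
  -- the key claim at scale `s`
  have key : ∀ s : ℝ, 0 < s → Convex ℝ {v : E | ‖v‖ ≤ s} → ‖h x - x‖ ≤ s := by
    intro s hs0 hcs
    -- all displacements lie in some dilate; take a minimal one
    let P : ℕ → Prop := fun n => ∀ h : E ≃ E, Isometry h → h (x + u) = x + u →
      h (x - u) = x - u → h x - x ∈ NBall s (n + 1)
    have hex : ∃ n, P n := by
      obtain ⟨n, hn⟩ := exists_nball s hs0 u
      refine ⟨n + 1 + n, ?_⟩
      intro h h1 h2 h3
      have e1 : h x - x = (h x - h (x + u)) + (-(-u)) := by rw [h2]; abel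
      rw [e1]
      have h4 : x - (x + u) ∈ NBall s (n + 1) := by
        have : x - (x + u) = -u := by abel
        rw [this]
        exact nball_neg hn
      have h5 := nball_map h h1 s (n + 1) x (x + u) h4
      have h6 : -(-u) ∈ NBall s (n + 1) := nball_neg (nball_neg hn)
      have h7 := nball_add h5 h6
      exact h7
    -- halving step
    have hhalf : ∀ n, P (2 * n) → P n := by
      intro n hP h h1 h2 h3
      obtain ⟨h', hi', ha', hb', hv⟩ := double_step (x + u) (x - u) x (by abel) h h1 h2 h3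
      have h4 := hv.mem_nball s _ (hP h' hi' ha' hb')
      rw [nball_convex s hcs hs0.le] at h4
      rw [nball_convex s hcs hs0.le]
      rw [← two_smul ℝ, smul_smul] at h4
      have h5 := convex_ball_smul s hcs hs0.le _ h4
        ((2 * (n : ℝ) + 1) / (2 * ((n : ℝ) + 1))) (by positivity) (by
          rw [div_le_one (by positivity)]; linarith)
      rw [smul_smul] at h5
      have e1 : (2 * (n : ℝ) + 1) / (2 * ((n : ℝ) + 1)) *
          ((1 : ℝ) / (((2 * n : ℕ) : ℝ) + 1) * 2) = 1 / ((n : ℝ) + 1) := by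
        push_cast
        field_simp
      rw [e1] at h5
      exact h5
    have hmono : ∀ n, P n → P (n + 1) := by
      intro n hP h h1 h2 h3
      have h4 := hP h h1 h2 h3
      have h5 : (0 : E) ∈ NBall s 1 := mem_nball_one.mpr (by rw [norm_zero]; exact hs0.le)
      have h6 := nball_add h4 h5
      rw [add_zero] at h6
      exact h6
    have hmono' : ∀ n k, P n → P (n + k) := by
      intro n k hP
      induction k with
      | zero => exact hP
      | succ k ih => exact hmono _ ih
    have hfinal : ∀ n, P n → P 0 := by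
      intro n
      induction n using Nat.strong_induction_on with
      | _ n ih =>
        intro hP
        rcases Nat.eq_zero_or_pos n with h0 | hpos
        · rw [h0] at hP; exact hP
        · rcases Nat.even_or_odd' n with ⟨k, hk | hk⟩
          · rw [hk] at hP
            exact ih k (by omega) (hhalf k hP)
          · by_cases hk0 : k = 0
            · -- n = 1
              subst hk0
              have h1 : P (2 * 0 + 1) := by rw [hk] at hP; exact hP
              -- from P 1: every displacement doubled lies in the 2-fold sum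
              intro h h1' h2' h3'
              obtain ⟨h', hi', ha', hb', hv⟩ :=
                double_step (x + u) (x - u) x (by abel) h h1' h2' h3'
              have h4 := hv.mem_nball s _ (h1 h' hi' ha' hb')
              rw [nball_convex s hcs hs0.le] at h4
              rw [nball_convex s hcs hs0.le]
              rw [← two_smul ℝ, smul_smul] at h4
              norm_num at h4 ⊢
              exact h4
            · have hP' : P (2 * (k + 1)) := by
                rw [hk] at hP
                exact hmono' _ 1 hP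
              exact ih (k + 1) (by omega) (hhalf (k + 1) hP')
    obtain ⟨n, hn⟩ := hex
    have := hfinal n hn h hh1 hh2 hh3
    exact mem_nball_one.mp this
  by_contra hne
  have hpos : 0 < ‖h x - x‖ := by
    rw [norm_pos_iff, sub_ne_zero]
    exact hne
  obtain ⟨s, hs0, hs1, hs2⟩ := hc (‖h x - x‖ / 2) (by linarith)
  have := key s hs0 hs2
  linarith

end Convex

end Pool.Agent.Helper22
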