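import Mathlib
import Pool.Agent.Helper22.MU
import Pool.Agent.Helper22.FSpace

/-!
Mazur-Ulam for two classes of F-spaces.
-/

set_option autoImplicit false

open scoped ENNReal Topology

namespace Pool.Agent.Helper22

section Expanding

variable {E : Type*} [NormedAddCommGroup E] [Module ℝ E] [ContinuousSMul ℝ E]

/-- Self-isometries of a locally expanding metric vector space are additive. -/
theorem additive_of_expanding (k r : ℝ) (hk : 1 < k) (hr : 0 < r)
    (hE : ∀ x : E, ‖x‖ ≤ r → k * ‖x‖ ≤ ‖x + x‖)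
    (g : E → E) (hg : Isometry g) (hs : Function.Surjective g) (h0 : g 0 = 0) :
    ∀ x y, g (x + y) = g x + g y := by
  let e : E ≃ E := Equiv.ofBijective g ⟨hg.injective, hs⟩
  have hloc : ∀ x u, ‖u‖ ≤ r / 2 → g (x + u) + g (x - u) = g x + g x := by
    intro x u hu
    have hmid := midpoint_preserved (X := E) (fun v => ENNReal.ofReal ‖v‖)
      (fun v => by simp only [norm_neg])
      (fun v w => by
        show ENNReal.ofReal ‖v + w‖ ≤ ENNReal.ofReal ‖v‖ + ENNReal.ofReal ‖w‖
        rw [← ENNReal.ofReal_add (norm_nonneg _) (norm_nonneg _)]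
        exact ENNReal.ofReal_le_ofReal (norm_add_le _ _))
      (fun v hv => by
        have : ‖v‖ ≤ 0 := ENNReal.ofReal_eq_zero.mp hv
        exact norm_eq_zero.mp (le_antisymm this (norm_nonneg _)))
      (ENNReal.ofReal k) (by
        rw [← ENNReal.ofReal_one]
        exact (ENNReal.ofReal_lt_ofReal_iff (by linarith)).mpr hk)
      (x + u) (x - u) x (by abel) ENNReal.ofReal_ne_top
      (fun v hv => by
        have h1 : ENNReal.ofReal ‖v‖ ≤ ENNReal.ofReal (2 * ‖x - (x + u)‖) := by
          rw [ENNReal.ofReal_mul (by norm_num)]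
          simpa using hv
        have h2 : ‖v‖ ≤ 2 * ‖x - (x + u)‖ :=
          (ENNReal.ofReal_le_ofReal_iff (by positivity)).mp h1
        have h3 : ‖x - (x + u)‖ = ‖u‖ := by
          rw [sub_add_cancel_left, norm_neg]
        have h4 : ‖v‖ ≤ r := by rw [h3] at h2; linarith
        show ENNReal.ofReal k * ENNReal.ofReal ‖v‖ ≤ ENNReal.ofReal ‖v + v‖
        rw [← ENNReal.ofReal_mul (by linarith)]
        exact ENNReal.ofReal_le_ofReal (hE v h4))
      e (fun x y => by
        show ENNReal.ofReal ‖g x - g y‖ = ENNReal.ofReal ‖x - y‖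
        rw [← dist_eq_norm, ← dist_eq_norm, hg.dist_eq])
    exact hmid.symm
  have := affine_of_local g (r / 2) (by linarith) hloc
  intro x y
  rw [this, h0, sub_zero]

end Expanding

section Chain

variable {E : Type*} [NormedAddCommGroup E]

/-- Infimum of the lengths of chains from `0` to `v` with steps of size at most `δ`. -/
noncomputable def chainLen (δ : ℝ) (v : E) : ℝ≥0∞ :=
  sInf {s | ∃ l : List E, (∀ w ∈ l, ‖w‖ ≤ δ) ∧ l.sum = v ∧
    (l.map (fun w => ENNReal.ofReal ‖w‖)).sum = s}

/-- The inner (chain) length. -/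
noncomputable def inner' (v : E) : ℝ≥0∞ := ⨆ (δ : ℝ) (_ : 0 < δ), chainLen δ v

theorem chain_map (g : E → E) (hg : Isometry g) (l : List E) :
    ∀ y : E, ∃ l' : List E, l'.sum = g (y + l.sum) - g y ∧
      l'.map (fun w => ‖w‖) = l.map (fun w => ‖w‖) := by
  induction l with
  | nil => intro y; exact ⟨[], by simp⟩
  | cons a l ih =>
    intro y
    obtain ⟨l', h1, h2⟩ := ih (y + a)
    refine ⟨(g (y + a) - g y) :: l', ?_, ?_⟩
    · rw [List.sum_cons, h1, List.sum_cons, add_assoc]
      abel
    · rw [List.map_cons, List.map_cons, h2]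
      congr 1
      rw [← dist_eq_norm, hg.dist_eq, dist_eq_norm]
      congr 1
      abel

theorem chainLen_le (g : E → E) (hg : Isometry g) (δ : ℝ) (x y : E) :
    chainLen δ (g x - g y) ≤ chainLen δ (x - y) := by
  apply le_sInf
  rintro s ⟨l, hl1, hl2, hl3⟩
  obtain ⟨l', h1, h2⟩ := chain_map g hg l y
  apply sInf_le
  refine ⟨l', ?_, ?_, ?_⟩
  · intro w hw
    have : ‖w‖ ∈ l'.map (fun w => ‖w‖) := List.mem_map.mpr ⟨w, hw, rfl⟩
    rw [h2] at this
    obtain ⟨w', hw', hww⟩ := List.mem_map.mp this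
    rw [← hww]
    exact hl1 w' hw'
  · rw [h1, hl2]
    congr 1
    congr 1
    abel
  · rw [← hl3]
    have e1 : ∀ l : List E, l.map (fun w => ENNReal.ofReal ‖w‖)
        = (l.map (fun w => ‖w‖)).map ENNReal.ofReal := by
      intro l
      rw [List.map_map]
      rfl
    rw [e1, e1, h2]

theorem inner'_le (g : E → E) (hg : Isometry g) (x y : E) :
    inner' (g x - g y) ≤ inner' (x - y) :=
  iSup₂_mono fun δ _ => chainLen_le g hg δ x y

theorem inner'_eq (g : E ≃ E) (hg : Isometry g) (x y : E) :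
    inner' (g x - g y) = inner' (x - y) := by
  apply le_antisymm (inner'_le g hg x y)
  have hsym : Isometry g.symm := by
    apply Isometry.of_dist_eq
    intro a b
    have := hg.dist_eq (g.symm a) (g.symm b)
    rw [Equiv.apply_symm_apply, Equiv.apply_symm_apply] at this
    exact this.symm
  have := inner'_le g.symm hsym (g x) (g y)
  rw [Equiv.symm_apply_apply, Equiv.symm_apply_apply] at this
  exact this

theorem chainLen_neg_le (δ : ℝ) (v : E) : chainLen δ (-v) ≤ chainLen δ v := by
  apply le_sInf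
  rintro s ⟨l, hl1, hl2, hl3⟩
  apply sInf_le
  refine ⟨l.map (fun w => -w), ?_, ?_, ?_⟩
  · intro w hw
    obtain ⟨w', hw', rfl⟩ := List.mem_map.mp hw
    rw [norm_neg]
    exact hl1 w' hw'
  · rw [← hl2]
    clear hl1 hl2 hl3
    induction l with
    | nil => simp
    | cons a l ih => rw [List.map_cons, List.sum_cons, List.sum_cons, ih]; abel
  · rw [← hl3, List.map_map]
    congr 1
    apply List.map_congr_left
    intro w _
    simp

theorem inner'_neg (v : E) : inner' (-v) = inner' v := by
  apply le_antisymm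
  · exact iSup₂_mono fun δ _ => chainLen_neg_le δ v
  · have := iSup₂_mono (f := fun (δ : ℝ) (_ : 0 < δ) => chainLen δ (- -v))
      (g := fun (δ : ℝ) (_ : 0 < δ) => chainLen δ (-v)) fun δ _ => chainLen_neg_le δ (-v)
    rw [neg_neg] at this
    exact this

theorem chainLen_add (δ : ℝ) (v w : E) : chainLen δ (v + w) ≤ chainLen δ v + chainLen δ w := by
  unfold chainLen
  rw [ENNReal.sInf_add]
  apply le_iInf₂
  rintro s ⟨l, hl1, hl2, hl3⟩
  rw [ENNReal.add_sInf]
  apply le_iInf₂
  rintro t ⟨l', hl1', hl2', hl3'⟩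
  apply sInf_le
  refine ⟨l ++ l', ?_, ?_, ?_⟩
  · intro u hu
    rcases List.mem_append.mp hu with h | h
    · exact hl1 u h
    · exact hl1' u h
  · rw [List.sum_append, hl2, hl2']
  · rw [List.map_append, List.sum_append, hl3, hl3']

theorem inner'_add (v w : E) : inner' (v + w) ≤ inner' v + inner' w := by
  apply iSup₂_le
  intro δ hδ
  refine (chainLen_add δ v w).trans (add_le_add ?_ ?_)
  · exact le_iSup₂ (f := fun (δ : ℝ) (_ : 0 < δ) => chainLen δ v) δ hδ
  · exact le_iSup₂ (f := fun (δ : ℝ) (_ : 0 < δ) => chainLen δ w) δ hδ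

end Chain

section Speed

variable {E : Type*} [NormedAddCommGroup E] [Module ℝ E]

/-- The speed of the line through `v`: supremum of `n * ‖v / n‖`. -/
noncomputable def speed (v : E) : ℝ≥0∞ :=
  ⨆ n : ℕ, ENNReal.ofReal (((n : ℝ) + 1) * ‖((1 : ℝ) / ((n : ℝ) + 1)) • v‖)

/-- Seminorms asymptotically dominated by the F-norm at zero. -/
def AsympDominated (q : Seminorm ℝ E) : Prop :=
  ∀ ε : ℝ, 0 < ε → ∃ δ : ℝ, 0 < δ ∧ ∀ w : E, ‖w‖ ≤ δ → q w ≤ (1 + ε) * ‖w‖

theorem inner'_le_speed [ContinuousSMul ℝ E] (v : E) : inner' v ≤ speed v := by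
  apply iSup₂_le
  intro δ hδ
  have hlim : Filter.Tendsto (fun n : ℕ => ‖((1 : ℝ) / ((n : ℝ) + 1)) • v‖)
      Filter.atTop (𝓝 (‖(0 : ℝ) • v‖)) := by
    apply Filter.Tendsto.norm
    exact Filter.Tendsto.smul_const (tendsto_one_div_add_atTop_nhds_zero_nat (𝕜 := ℝ)) v
  rw [zero_smul, norm_zero] at hlim
  obtain ⟨n, hn⟩ := (hlim.eventually (gt_mem_nhds hδ)).exists
  have h1 : chainLen δ v ≤ ENNReal.ofReal (((n : ℝ) + 1) * ‖((1 : ℝ) / ((n : ℝ) + 1)) • v‖) := by
    apply sInf_le
    refine ⟨List.replicate (n + 1) (((1 : ℝ) / ((n : ℝ) + 1)) • v), ?_, ?_, ?_⟩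
    · intro w hw
      rw [List.eq_of_mem_replicate hw]
      exact hn.le
    · rw [List.sum_replicate, ← Nat.cast_smul_eq_nsmul ℝ, smul_smul]
      have hne : ((n : ℝ) + 1) ≠ 0 := by positivity
      have : ((n + 1 : ℕ) : ℝ) * ((1 : ℝ) / ((n : ℝ) + 1)) = 1 := by
        push_cast
        field_simp
      rw [this, one_smul]
    · rw [List.map_replicate, List.sum_replicate, nsmul_eq_mul,
        ENNReal.ofReal_mul (by positivity)]
      congr 1
      rw [← Nat.cast_succ, ENNReal.ofReal_natCast]
  exact h1.trans (le_iSup (fun n : ℕ =>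
    ENNReal.ofReal (((n : ℝ) + 1) * ‖((1 : ℝ) / ((n : ℝ) + 1)) • v‖)) n)

theorem seminorm_le_inner' (q : Seminorm ℝ E) (hq : AsympDominated q) (v : E) :
    ENNReal.ofReal (q v) ≤ inner' v := by
  have key : ∀ ε : ℝ, 0 < ε → ENNReal.ofReal (q v) ≤ ENNReal.ofReal (1 + ε) * inner' v := by
    intro ε hε
    obtain ⟨δ, hδ, hd⟩ := hq ε hε
    have h1 : ENNReal.ofReal (q v) ≤ ENNReal.ofReal (1 + ε) * chainLen δ v := by
      have hne0 : ENNReal.ofReal (1 + ε) ≠ 0 := by
        simp only [ne_eq, ENNReal.ofReal_eq_zero, not_le]; linarith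
      rw [mul_comm]
      rw [← ENNReal.div_le_iff hne0 ENNReal.ofReal_ne_top]
      apply le_sInf
      rintro s ⟨l, hl1, hl2, hl3⟩
      rw [ENNReal.div_le_iff hne0 ENNReal.ofReal_ne_top, mul_comm]
      rw [← hl3, ← hl2]
      clear hl2 hl3
      induction l with
      | nil => simp
      | cons a l ih =>
        rw [List.sum_cons, List.map_cons, List.sum_cons, mul_add]
        have ha : ‖a‖ ≤ δ := hl1 a (by simp)
        have hl : ∀ w ∈ l, ‖w‖ ≤ δ := fun w hw => hl1 w (by simp [hw])
        calc ENNReal.ofReal (q (a + l.sum)) ≤ ENNReal.ofReal (q a + q l.sum) :=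
              ENNReal.ofReal_le_ofReal (map_add_le_add q _ _)
          _ = ENNReal.ofReal (q a) + ENNReal.ofReal (q l.sum) :=
              ENNReal.ofReal_add (apply_nonneg q _) (apply_nonneg q _)
          _ ≤ ENNReal.ofReal (1 + ε) * ENNReal.ofReal ‖a‖
              + ENNReal.ofReal (1 + ε) * (l.map (fun w => ENNReal.ofReal ‖w‖)).sum := by
              apply add_le_add _ (ih hl)
              rw [← ENNReal.ofReal_mul (by linarith)]
              exact ENNReal.ofReal_le_ofReal (hd a ha)
    refine h1.trans (mul_le_mul_right ?_ _)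
    exact le_iSup₂ (f := fun (δ : ℝ) (_ : 0 < δ) => chainLen δ v) δ hδ
  by_cases htop : inner' v = ⊤
  · rw [htop]; exact le_top
  -- take the limit
  have hlim : Filter.Tendsto (fun n : ℕ => ENNReal.ofReal (1 + 1 / ((n : ℝ) + 1)) * inner' v)
      Filter.atTop (𝓝 (ENNReal.ofReal (1 + 0) * inner' v)) := by
    apply ENNReal.Tendsto.mul_const
    · apply ENNReal.tendsto_ofReal
      exact tendsto_const_nhds.add (tendsto_one_div_add_atTop_nhds_zero_nat (𝕜 := ℝ))
    · right; exact htop
  rw [add_zero, ENNReal.ofReal_one, one_mul] at hlim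
  exact ge_of_tendsto' hlim (fun n => key _ (by positivity))

/-- Self-isometries are additive if, at small scales, the F-norm is the supremum of seminorms and
the vectors of finite speed are dense. -/
theorem additive_of_speed [ContinuousSMul ℝ E]
    (hdense : Dense {v : E | speed v ≠ ⊤})
    (hsup : ∀ (v : E) (c : ℝ≥0∞), c < speed v →
      ∃ q : Seminorm ℝ E, AsympDominated q ∧ c < ENNReal.ofReal (q v))
    (g : E → E) (hg : Isometry g) (hs : Function.Surjective g) (h0 : g 0 = 0) :
    ∀ x y, g (x + y) = g x + g y := by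
  let e : E ≃ E := Equiv.ofBijective g ⟨hg.injective, hs⟩
  have heq : ∀ v : E, inner' v = speed v := by
    intro v
    apply le_antisymm (inner'_le_speed v)
    apply le_of_forall_lt
    intro c hc
    obtain ⟨q, hq, hcq⟩ := hsup v c hc
    exact hcq.trans_le (seminorm_le_inner' q hq v)
  have hnorm : ∀ v : E, ENNReal.ofReal ‖v‖ ≤ inner' v := by
    intro v
    rw [heq]
    have := le_iSup (fun n : ℕ =>
      ENNReal.ofReal (((n : ℝ) + 1) * ‖((1 : ℝ) / ((n : ℝ) + 1)) • v‖)) 0
    refine le_trans (le_of_eq ?_) this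
    norm_num
  have hzero : ∀ v : E, inner' v = 0 → v = 0 := by
    intro v hv
    have h1 := hnorm v
    rw [hv] at h1
    have h2 : ‖v‖ ≤ 0 := ENNReal.ofReal_eq_zero.mp (le_antisymm h1 bot_le)
    exact norm_eq_zero.mp (le_antisymm h2 (norm_nonneg _))
  have hdouble : ∀ v : E, 2 * inner' v ≤ inner' (v + v) := by
    intro v
    have h1 : ∀ c : ℝ≥0∞, c < inner' v → 2 * c ≤ inner' (v + v) := by
      intro c hc
      rw [heq] at hc
      obtain ⟨q, hq, hcq⟩ := hsup v c hc
      have h2 : ENNReal.ofReal (q (v + v)) = 2 * ENNReal.ofReal (q v) := by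
        have : q (v + v) = 2 * q v := by
          rw [← two_smul ℝ v, map_smul_eq_mul]
          norm_num
        rw [this, ENNReal.ofReal_mul (by norm_num)]
        simp
      calc 2 * c ≤ 2 * ENNReal.ofReal (q v) := mul_le_mul_right hcq.le _
        _ = ENNReal.ofReal (q (v + v)) := h2.symm
        _ ≤ inner' (v + v) := seminorm_le_inner' q hq _
    apply le_of_forall_lt
    intro d hd
    have hd' : d / 2 < inner' v := by
      rw [ENNReal.div_lt_iff (Or.inl (by norm_num)) (Or.inl (by norm_num))]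
      rw [mul_comm]
      exact hd
    obtain ⟨c, hc1, hc2⟩ := exists_between hd'
    have h3 := h1 c hc2
    refine lt_of_lt_of_le ?_ h3
    rw [ENNReal.div_lt_iff (Or.inl (by norm_num)) (Or.inl (by norm_num))] at hc1
    rw [mul_comm]
    exact hc1
  have haff := affine_of_dense g hg.continuous {v : E | inner' v ≠ ⊤}
    (by
      have : {v : E | inner' v ≠ ⊤} = {v : E | speed v ≠ ⊤} := by
        ext v; simp only [Set.mem_ofPred_eq, heq]
      rw [this]; exact hdense)
    (fun u hu v hv => by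
      have h1 := inner'_add u v
      have h2 : inner' u + inner' v ≠ ⊤ := ENNReal.add_ne_top.mpr ⟨hu, hv⟩
      exact ne_top_of_le_ne_top h2 h1)
    (fun u hu => by
      show inner' (-u) ≠ ⊤
      rw [inner'_neg]; exact hu)
    (fun u hu => by
      refine ⟨(1 / 2 : ℝ) • u, ?_, ?_⟩
      · show inner' ((1 / 2 : ℝ) • u) ≠ ⊤
        intro htop
        have h1 := hdouble ((1 / 2 : ℝ) • u)
        rw [← add_smul, htop] at h1
        norm_num at h1
        exact hu h1
      · rw [← add_smul]
        norm_num)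
    (fun x u hu => by
      have hmid := midpoint_preserved (X := E) inner' inner'_neg inner'_add hzero 2 (by norm_num)
        (x + u) (x - u) x (by abel) (by
          rw [sub_add_cancel_left, inner'_neg]; exact hu)
        (fun v _ => hdouble v) e (fun a b => inner'_eq e hg a b)
      exact hmid.symm)
  intro x y
  rw [haff, h0, sub_zero]

end Speed

end Pool.Agent.Helper22
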