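import Mathlib
import Pool.Agent.Helper22.Core

/-!
F-norms of integral type satisfy the non-saturation criterion.
-/

set_option autoImplicit false

open scoped ENNReal Topology
open MeasureTheory Filter

namespace Pool.Agent.Helper22

/-- A sequence of nonnegative integrable functions with integrals tending to zero has an almost
everywhere null subsequence. -/
theorem exists_subseq_ae {I : Type*} [MeasurableSpace I] (μ : Measure I) (F : ℕ → I → ℝ)
    (hint : ∀ j, Integrable (F j) μ) (hpos : ∀ j, ∀ᵐ i ∂μ, 0 ≤ F j i)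
    (hlim : Tendsto (fun j => ∫ i, F j i ∂μ) atTop (𝓝 0)) :
    ∃ ns : ℕ → ℕ, StrictMono ns ∧ ∀ᵐ i ∂μ, Tendsto (fun k => F (ns k) i) atTop (𝓝 0) := by
  have h1 : Tendsto (fun j => eLpNorm (F j - fun _ => (0 : ℝ)) 1 μ) atTop (𝓝 0) := by
    have : ∀ j, eLpNorm (F j - fun _ => (0 : ℝ)) 1 μ = ENNReal.ofReal (∫ i, F j i ∂μ) := by
      intro j
      have e1 : (F j - fun _ => (0 : ℝ)) = F j := by
        funext i; simp
      rw [e1, eLpNorm_one_eq_lintegral_enorm, ofReal_integral_eq_lintegral_ofReal (hint j) (hpos j)]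
      apply lintegral_congr_ae
      filter_upwards [hpos j] with i hi
      rw [Real.enorm_eq_ofReal hi]
    simp_rw [this]
    have := ENNReal.tendsto_ofReal hlim
    rwa [ENNReal.ofReal_zero] at this
  have h2 : TendstoInMeasure μ F atTop (fun _ => (0 : ℝ)) :=
    tendstoInMeasure_of_tendsto_eLpNorm one_ne_zero (fun j => (hint j).aestronglyMeasurable)
      aestronglyMeasurable_const h1
  exact h2.exists_seq_tendsto_ae

/-- A continuous strictly increasing function grows by a definite amount under multiplication by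
`κ > 1`, on compact subsets of the open half-line. -/
theorem exists_gap (φ : ℝ → ℝ) (hφc : Continuous φ) (hφm : StrictMonoOn φ (Set.Ici 0)) (κ : ℝ)
    (hκ : 1 < κ) (c C : ℝ) (hc : 0 < c) :
    ∃ η : ℝ, 0 < η ∧ ∀ t, c ≤ t → t ≤ C → η ≤ φ (κ * t) - φ t := by
  by_cases hcC : c ≤ C
  · obtain ⟨t0, ht0, hmin⟩ := (isCompact_Icc (a := c) (b := C)).exists_isMinOn
      (Set.nonempty_Icc.mpr hcC)
      (f := fun t => φ (κ * t) - φ t) (by fun_prop)
    refine ⟨φ (κ * t0) - φ t0, ?_, ?_⟩
    · have h0 : 0 < t0 := lt_of_lt_of_le hc ht0.1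
      have : t0 < κ * t0 := by nlinarith
      have := hφm (Set.mem_Ici.mpr h0.le) (Set.mem_Ici.mpr (by nlinarith)) this
      linarith
    · intro t h1 h2
      exact hmin ⟨h1, h2⟩
  · exact ⟨1, one_pos, fun t h1 h2 => absurd (h1.trans h2) hcC⟩

section

variable {E : Type*} [NormedAddCommGroup E] {I : Type*} [MeasurableSpace I]

theorem nonSat_of_integral (μ : Measure I) (φ : I → ℝ → ℝ) (κ : I → ℝ) (q : I → E → ℝ)
    (hφc : ∀ i, Continuous (φ i)) (hφm : ∀ i, StrictMonoOn (φ i) (Set.Ici 0))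
    (hφ0 : ∀ i, φ i 0 = 0)
    (hφs : ∀ i s t, 0 ≤ s → 0 ≤ t → φ i (s + t) ≤ φ i s + φ i t)
    (hκ : ∀ i, 1 < κ i) (hq0 : ∀ i x, 0 ≤ q i x)
    (hqadd : ∀ x y, ∀ᵐ i ∂μ, q i (x + y) ≤ q i x + q i y)
    (hqneg : ∀ x, ∀ᵐ i ∂μ, q i (-x) = q i x)
    (hqd : ∀ x, ∀ᵐ i ∂μ, κ i * q i x ≤ q i (x + x))
    (hint : ∀ x, Integrable (fun i => φ i (q i x)) μ)
    (hnorm : ∀ x, ‖x‖ = ∫ i, φ i (q i x) ∂μ) (u : E) : NonSat u := by
  intro lam hlam
  by_contra hcon
  push Not at hcon
  -- choose a bad sequence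
  have hseq : ∀ j : ℕ, ∃ d : E, ‖u + d‖ = ‖u‖ ∧ lam ≤ ‖d‖ ∧
      ‖d + d‖ < ‖d‖ + 1 / ((j : ℝ) + 1) := by
    intro j
    obtain ⟨d, h1, h2, h3, h4⟩ := hcon (1 / ((j : ℝ) + 1)) (by positivity)
    exact ⟨d, h1, h3, h4⟩
  choose d hd1 hd2 hd3 using hseq
  -- basic facts
  have hmono : ∀ i s t, 0 ≤ s → s ≤ t → φ i s ≤ φ i t := fun i s t hs hst =>
    (hφm i).monotoneOn (Set.mem_Ici.mpr hs) (Set.mem_Ici.mpr (hs.trans hst)) hst
  have hNpos : ∀ i x, 0 ≤ φ i (q i x) := by
    intro i x
    rw [← hφ0 i]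
    exact hmono i 0 _ le_rfl (hq0 i x)
  have hNsub : ∀ x y, ∀ᵐ i ∂μ, φ i (q i (x + y)) ≤ φ i (q i x) + φ i (q i y) := by
    intro x y
    filter_upwards [hqadd x y] with i hi
    exact (hmono i _ _ (hq0 i _) hi).trans (hφs i _ _ (hq0 i _) (hq0 i _))
  -- first function: increase under doubling
  let f : ℕ → I → ℝ := fun j i => φ i (q i (d j + d j)) - φ i (q i (d j))
  have hfint : ∀ j, Integrable (f j) μ := fun j => (hint _).sub (hint _)
  have hfge : ∀ j, ∀ᵐ i ∂μ, φ i (κ i * q i (d j)) - φ i (q i (d j)) ≤ f j i := by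
    intro j
    filter_upwards [hqd (d j)] with i hi
    have := hmono i _ _ (mul_nonneg (by linarith [hκ i]) (hq0 i (d j))) hi
    show _ ≤ φ i (q i (d j + d j)) - φ i (q i (d j))
    linarith
  have hfpos : ∀ j, ∀ᵐ i ∂μ, 0 ≤ f j i := by
    intro j
    filter_upwards [hfge j] with i hi
    have h1 : q i (d j) ≤ κ i * q i (d j) := by nlinarith [hκ i, hq0 i (d j)]
    have := hmono i _ _ (hq0 i _) h1
    linarith
  have hflim : Tendsto (fun j => ∫ i, f j i ∂μ) atTop (𝓝 0) := by
    have hb : Tendsto (fun j : ℕ => 1 / ((j : ℝ) + 1)) atTop (𝓝 0) :=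
      tendsto_one_div_add_atTop_nhds_zero_nat
    refine squeeze_zero (fun j => integral_nonneg_of_ae (hfpos j)) (fun j => ?_) hb
    have : ∫ i, f j i ∂μ = ‖d j + d j‖ - ‖d j‖ := by
      show ∫ i, (φ i (q i (d j + d j)) - φ i (q i (d j))) ∂μ = _
      rw [integral_sub (hint _) (hint _), ← hnorm, ← hnorm]
    rw [this]
    linarith [hd3 j]
  obtain ⟨ns, hns, hae1⟩ := exists_subseq_ae μ f hfint hfpos hflim
  -- second function
  let N0 : I → ℝ := fun i => φ i (q i u)
  let g : ℕ → I → ℝ := fun k i => φ i (q i (u + d (ns k))) - N0 i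
  have hgint : ∀ k, Integrable (g k) μ := fun k => (hint _).sub (hint _)
  have hg0 : ∀ k, ∫ i, g k i ∂μ = 0 := by
    intro k
    show ∫ i, (φ i (q i (u + d (ns k))) - φ i (q i u)) ∂μ = 0
    rw [integral_sub (hint _) (hint _), ← hnorm, ← hnorm, hd1, sub_self]
  -- collect the almost everywhere statements
  have haeall : ∀ᵐ i ∂μ, (Tendsto (fun k => f (ns k) i) atTop (𝓝 0)) ∧
      (∀ k, φ i (κ i * q i (d (ns k))) - φ i (q i (d (ns k))) ≤ f (ns k) i) ∧
      (∀ k, φ i (q i u) ≤ φ i (q i (u + d (ns k))) + φ i (q i (d (ns k)))) ∧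
      (∀ k, q i (d (ns k)) ≤ q i (u + d (ns k)) + q i u) ∧
      (∀ k, φ i (q i (d (ns k))) ≤ φ i (q i (u + d (ns k))) + φ i (q i u)) := by
    have h2 : ∀ᵐ i ∂μ, ∀ k, φ i (κ i * q i (d (ns k))) - φ i (q i (d (ns k))) ≤ f (ns k) i :=
      ae_all_iff.mpr fun k => hfge (ns k)
    have h3 : ∀ᵐ i ∂μ, ∀ k, φ i (q i u) ≤ φ i (q i (u + d (ns k))) + φ i (q i (d (ns k))) := by
      rw [ae_all_iff]
      intro k
      filter_upwards [hNsub (u + d (ns k)) (-(d (ns k))), hqneg (d (ns k))] with i h1 h2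
      rw [h2] at h1
      have : u + d (ns k) + -(d (ns k)) = u := by abel
      rw [this] at h1
      exact h1
    have h4 : ∀ᵐ i ∂μ, ∀ k, q i (d (ns k)) ≤ q i (u + d (ns k)) + q i u := by
      rw [ae_all_iff]
      intro k
      filter_upwards [hqadd (u + d (ns k)) (-u), hqneg u] with i h1 h2
      rw [h2] at h1
      have : u + d (ns k) + -u = d (ns k) := by abel
      rw [this] at h1
      exact h1
    filter_upwards [hae1, h2, h3, h4] with i a1 a2 a3 a4
    refine ⟨a1, a2, a3, a4, ?_⟩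
    intro k
    exact (hmono i _ _ (hq0 i _) (a4 k)).trans (hφs i _ _ (hq0 i _) (hq0 i _))
  -- negative part tends to zero a.e.
  have hneg_ae : ∀ᵐ i ∂μ, Tendsto (fun k => max (-(g k i)) 0) atTop (𝓝 0) := by
    filter_upwards [haeall] with i hi
    obtain ⟨a1, a2, a3, a4, a5⟩ := hi
    rw [Metric.tendsto_atTop]
    intro η hη
    -- small t have small φ
    obtain ⟨c, hc, hcη⟩ : ∃ c : ℝ, 0 < c ∧ φ i c < η := by
      have h1 : Tendsto (φ i) (𝓝 0) (𝓝 (φ i 0)) := (hφc i).tendsto 0
      rw [hφ0] at h1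
      obtain ⟨δ, hδ, h2⟩ := Metric.tendsto_nhds_nhds.mp h1 η hη
      refine ⟨δ / 2, by linarith, ?_⟩
      have h3 := h2 (x := δ / 2) (by rw [Real.dist_eq, sub_zero, abs_of_pos (by linarith)]; linarith)
      rw [Real.dist_eq, sub_zero] at h3
      exact (le_abs_self _).trans_lt h3
    obtain ⟨η', hη', hgap⟩ := exists_gap (φ i) (hφc i) (hφm i) (κ i) (hκ i) c (q i u + q i u) hc
    obtain ⟨K, hK⟩ := (Metric.tendsto_atTop.mp a1) η' hη'
    refine ⟨K, fun k hk => ?_⟩
    have hfk := hK k hk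
    rw [Real.dist_eq, sub_zero] at hfk ⊢
    rw [abs_of_nonneg (le_max_right _ _)]
    by_contra hge
    push Not at hge
    have hg1 : η ≤ -(g k i) := by
      rcases le_max_iff.mp hge with h | h
      · exact h
      · linarith
    have hg2 : φ i (q i (u + d (ns k))) ≤ φ i (q i u) - η := by
      have : g k i = φ i (q i (u + d (ns k))) - φ i (q i u) := rfl
      linarith
    have h1 : η ≤ φ i (q i (d (ns k))) := by linarith [a3 k]
    have h2 : c ≤ q i (d (ns k)) := by
      by_contra h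
      push Not at h
      have := hmono i _ _ (hq0 i _) h.le
      linarith
    have h3 : q i (u + d (ns k)) ≤ q i u := by
      by_contra h
      push Not at h
      have := hmono i _ _ (hq0 i _) h.le
      linarith
    have h4 : q i (d (ns k)) ≤ q i u + q i u := by linarith [a4 k]
    have h5 := hgap _ h2 h4
    have h6 := a2 k
    have h7 := (le_abs_self (f (ns k) i))
    linarith
  have hneg_lim : Tendsto (fun k => ∫ i, max (-(g k i)) 0 ∂μ) atTop (𝓝 0) := by
    have := tendsto_integral_of_dominated_convergence (μ := μ)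
      (F := fun k i => max (-(g k i)) 0) (f := fun _ => (0 : ℝ)) N0
      (fun k => ((hgint k).neg.sup (integrable_zero _ _ _)).aestronglyMeasurable)
      (hint u) (fun k => ?_) hneg_ae
    · simpa using this
    · filter_upwards with i
      rw [Real.norm_eq_abs, abs_of_nonneg (le_max_right _ _)]
      apply max_le
      · have h1 : g k i = φ i (q i (u + d (ns k))) - N0 i := rfl
        linarith [hNpos i (u + d (ns k))]
      · exact hNpos i u
  have hgp : ∀ k, Integrable (fun i => max (g k i) 0) μ := fun k =>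
    (hgint k).sup (integrable_zero _ _ _)
  have hgn : ∀ k, Integrable (fun i => max (-(g k i)) 0) μ := fun k =>
    (hgint k).neg.sup (integrable_zero _ _ _)
  have hpos_lim : Tendsto (fun k => ∫ i, max (g k i) 0 ∂μ) atTop (𝓝 0) := by
    have : ∀ k, ∫ i, max (g k i) 0 ∂μ = ∫ i, max (-(g k i)) 0 ∂μ := by
      intro k
      have h0 : ∀ i, max (g k i) 0 - max (-(g k i)) 0 = g k i := by
        intro i
        rcases le_total 0 (g k i) with h | h
        · rw [max_eq_left h, max_eq_right (by linarith), sub_zero]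
        · rw [max_eq_right h, max_eq_left (by linarith)]; ring
      have h1 : ∫ i, (max (g k i) 0 - max (-(g k i)) 0) ∂μ = 0 := by
        simp_rw [h0]
        exact hg0 k
      rw [integral_sub (hgp k) (hgn k)] at h1
      linarith
    simp_rw [this]
    exact hneg_lim
  obtain ⟨ms, hms, hae2⟩ := exists_subseq_ae μ (fun k i => max (g k i) 0)
    (fun k => (hgint k).sup (integrable_zero _ _ _))
    (fun k => by filter_upwards with i; exact le_max_right _ _) hpos_lim
  -- along `ms` the vectors `d` tend to zero in measure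
  have hd_ae : ∀ᵐ i ∂μ, Tendsto (fun l => φ i (q i (d (ns (ms l))))) atTop (𝓝 0) := by
    filter_upwards [haeall, hae2, hneg_ae] with i hi h2 h3
    obtain ⟨a1, a2, a3, a4, a5⟩ := hi
    rw [Metric.tendsto_atTop]
    intro η hη
    obtain ⟨c, hc, hcη⟩ : ∃ c : ℝ, 0 < c ∧ φ i c < η := by
      have h1 : Tendsto (φ i) (𝓝 0) (𝓝 (φ i 0)) := (hφc i).tendsto 0
      rw [hφ0] at h1
      obtain ⟨δ, hδ, h2⟩ := Metric.tendsto_nhds_nhds.mp h1 η hη
      refine ⟨δ / 2, by linarith, ?_⟩
      have h3 := h2 (x := δ / 2) (by rw [Real.dist_eq, sub_zero, abs_of_pos (by linarith)]; linarith)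
      rw [Real.dist_eq, sub_zero] at h3
      exact (le_abs_self _).trans_lt h3
    obtain ⟨η', hη', hgap⟩ :=
      exists_gap (φ i) (hφc i) (hφm i) (κ i) (hκ i) c (q i u + 1 + q i u) hc
    have a1' : Tendsto (fun l => f (ns (ms l)) i) atTop (𝓝 0) := a1.comp hms.tendsto_atTop
    obtain ⟨K, hK⟩ := (Metric.tendsto_atTop.mp a1') η' hη'
    have hgapu : 0 < φ i (q i u + 1) - φ i (q i u) := by
      have := hφm i (Set.mem_Ici.mpr (hq0 i u))
        (Set.mem_Ici.mpr (by linarith [hq0 i u])) (show q i u < q i u + 1 by linarith)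
      linarith
    obtain ⟨L, hL⟩ := (Metric.tendsto_atTop.mp h2) _ hgapu
    refine ⟨max K L, fun l hl => ?_⟩
    have hfk := hK l ((le_max_left _ _).trans hl)
    have hgk := hL l ((le_max_right _ _).trans hl)
    rw [Real.dist_eq, sub_zero] at hfk hgk ⊢
    rw [abs_of_nonneg (hNpos i _)]
    by_contra hge
    push Not at hge
    have hb2 : c ≤ q i (d (ns (ms l))) := by
      by_contra h
      push Not at h
      have := hmono i _ _ (hq0 i _) h.le
      linarith
    have hb3 : q i (u + d (ns (ms l))) ≤ q i u + 1 := by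
      by_contra h
      push Not at h
      have hm := hmono i _ _ (by linarith [hq0 i u]) h.le
      have h5 : g (ms l) i = φ i (q i (u + d (ns (ms l)))) - φ i (q i u) := rfl
      have h6 := le_max_left (g (ms l) i) 0
      have h7 := le_abs_self (max (g (ms l) i) 0)
      linarith
    have hb4 : q i (d (ns (ms l))) ≤ q i u + 1 + q i u := by linarith [a4 (ms l)]
    have hb5 := hgap _ hb2 hb4
    have hb6 := a2 (ms l)
    have hb7 := (le_abs_self (f (ns (ms l)) i))
    linarith
  -- the positive part along the subsequence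
  have hpos_lim' : Tendsto (fun l => ∫ i, max (g (ms l) i) 0 ∂μ) atTop (𝓝 0) :=
    hpos_lim.comp hms.tendsto_atTop
  have hrem : Tendsto (fun l => ∫ i, max (φ i (q i (d (ns (ms l)))) - max (g (ms l) i) 0) 0 ∂μ)
      atTop (𝓝 0) := by
    have := tendsto_integral_of_dominated_convergence (μ := μ)
      (F := fun l i => max (φ i (q i (d (ns (ms l)))) - max (g (ms l) i) 0) 0)
      (f := fun _ => (0 : ℝ)) (fun i => N0 i + N0 i)
      (fun l => (((hint _).sub ((hgint _).sup (integrable_zero _ _ _))).sup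
        (integrable_zero _ _ _)).aestronglyMeasurable)
      ((hint u).add (hint u)) (fun l => ?_) ?_
    · simpa using this
    · filter_upwards [haeall] with i hi
      obtain ⟨a1, a2, a3, a4, a5⟩ := hi
      rw [Real.norm_eq_abs, abs_of_nonneg (le_max_right _ _)]
      apply max_le
      · have h1 : g (ms l) i = φ i (q i (u + d (ns (ms l)))) - N0 i := rfl
        have h2 := le_max_left (g (ms l) i) 0
        have h3 : N0 i = φ i (q i u) := rfl
        linarith [a5 (ms l)]
      · exact add_nonneg (hNpos i u) (hNpos i u)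
    · filter_upwards [hd_ae, hae2] with i h1 h2
      have h3 := (h1.sub h2).max (tendsto_const_nhds (x := (0 : ℝ)))
      simpa using h3
  have hrm : ∀ l, Integrable
      (fun i => max (φ i (q i (d (ns (ms l)))) - max (g (ms l) i) 0) 0) μ := fun l =>
    ((hint _).sub (hgp _)).sup (integrable_zero _ _ _)
  have hfinal : Tendsto (fun l => ‖d (ns (ms l))‖) atTop (𝓝 0) := by
    have hsum := hrem.add hpos_lim'
    rw [add_zero] at hsum
    refine squeeze_zero (fun l => norm_nonneg _) (fun l => ?_) hsum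
    rw [hnorm, ← integral_add (hrm l) (hgp (ms l))]
    apply integral_mono (hint _)
    · exact (hrm l).add (hgp (ms l))
    · intro i
      show φ i (q i (d (ns (ms l)))) ≤ max (φ i (q i (d (ns (ms l)))) - max (g (ms l) i) 0) 0
        + max (g (ms l) i) 0
      have := le_max_left (φ i (q i (d (ns (ms l)))) - max (g (ms l) i) 0) 0
      linarith
  have := ge_of_tendsto' hfinal (fun l => hd2 (ns (ms l)))
  linarith

end

end Pool.Agent.Helper22
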