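import Mathlib
import Pool.Agent.Helper22.Core
import Pool.Agent.Helper22.Integral

/-!
Assembling the Mazur-Ulam theorems for F-spaces.
-/

set_option autoImplicit false

open scoped ENNReal Topology

namespace Pool.Agent.Helper22

section

variable {E F : Type*} [NormedAddCommGroup E] [Module ℝ E] [NormedAddCommGroup F]

theorem affine_of_absorbing (g : E → F) (hg : Continuous g) (W : Set E)
    (hneg : ∀ p ∈ W, -p ∈ W) (hhalf : ∀ p ∈ W, (1 / 2 : ℝ) • p ∈ W)
    (hdense : Dense {x : E | ∃ n : ℕ, ∃ p ∈ W, (2 : ℝ) ^ n • p = x})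
    (h : ∀ x, ∀ p ∈ W, ∀ q ∈ W, g (x + (p + q)) + g (x - (p + q)) = g x + g x) :
    ∀ x y, g (x + y) = g x + g y - g 0 := by
  have hpar : ∀ x, ∀ p ∈ W, ∀ q ∈ W,
      g (x + (p + p) + (q + q)) - g (x + (p + p)) = g (x + (q + q)) - g x := by
    intro x p hp q hq
    have e1 := h (x + p + q) p hp q hq
    have e2 := h (x + p + q) p hp (-q) (hneg q hq)
    have a1 : x + p + q + (p + q) = x + (p + p) + (q + q) := by abel
    have a2 : x + p + q - (p + q) = x := by abel
    have a3 : x + p + q + (p + -q) = x + (p + p) := by abel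
    have a4 : x + p + q - (p + -q) = x + (q + q) := by abel
    rw [a1, a2] at e1
    rw [a3, a4] at e2
    rw [sub_eq_sub_iff_add_eq_add, e1, ← e2]
    abel
  -- multiples of doubled elements
  have hmul : ∀ (n : ℕ) (p : E), (2 : ℝ) ^ n • p = (2 ^ n : ℕ) • ((1 / 2 : ℝ) • p + (1 / 2 : ℝ) • p) := by
    intro n p
    rw [← add_smul, ← Nat.cast_smul_eq_nsmul ℝ, smul_smul]
    congr 1
    push_cast
    ring
  have hconst : ∀ q ∈ W, ∀ x, g (x + (q + q)) - g x = g (q + q) - g 0 := by
    intro q hq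
    have hcl : IsClosed {x : E | g (x + (q + q)) - g x = g (q + q) - g 0} := by
      apply isClosed_eq
      · exact (hg.comp (continuous_id.add continuous_const)).sub hg
      · exact continuous_const
    have hsub : {x : E | ∃ n : ℕ, ∃ p ∈ W, (2 : ℝ) ^ n • p = x} ⊆
        {x : E | g (x + (q + q)) - g x = g (q + q) - g 0} := by
      rintro x ⟨n, p, hp, rfl⟩
      rw [hmul]
      have hp2 := hhalf p hp
      have hchain : ∀ j : ℕ, g (j • ((1 / 2 : ℝ) • p + (1 / 2 : ℝ) • p) + (q + q)) -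
          g (j • ((1 / 2 : ℝ) • p + (1 / 2 : ℝ) • p)) = g (q + q) - g 0 := by
        intro j
        induction j with
        | zero => rw [zero_smul, zero_add]
        | succ j ih =>
          rw [add_smul, one_smul, hpar _ _ hp2 _ hq, ih]
      exact hchain (2 ^ n)
    have := closure_minimal hsub hcl
    intro x
    exact this (hdense x)
  have hD : ∀ x, ∀ y ∈ {x : E | ∃ n : ℕ, ∃ p ∈ W, (2 : ℝ) ^ n • p = x},
      g (x + y) - g x = g y - g 0 := by
    rintro x y ⟨n, p, hp, rfl⟩
    rw [hmul]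
    have hp2 := hhalf p hp
    have hchain : ∀ (z : E) (j : ℕ), g (z + j • ((1 / 2 : ℝ) • p + (1 / 2 : ℝ) • p)) - g z
        = j • (g ((1 / 2 : ℝ) • p + (1 / 2 : ℝ) • p) - g 0) := by
      intro z j
      induction j with
      | zero => rw [zero_smul, zero_smul, add_zero, sub_self]
      | succ j ih =>
        have h1 := hconst _ hp2 (z + j • ((1 / 2 : ℝ) • p + (1 / 2 : ℝ) • p))
        rw [add_smul, one_smul, add_smul, one_smul, ← ih, ← h1, ← add_assoc]
        abel
    have h1 := hchain x (2 ^ n)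
    have h2 := hchain 0 (2 ^ n)
    rw [zero_add] at h2
    rw [h1, h2]
  intro x y
  have hcl : IsClosed {v : E | g (x + v) - g x = g v - g 0} := by
    apply isClosed_eq
    · exact (hg.comp (continuous_const.add continuous_id)).sub continuous_const
    · exact hg.sub continuous_const
  have : closure {x : E | ∃ n : ℕ, ∃ p ∈ W, (2 : ℝ) ^ n • p = x} ⊆
      {v : E | g (x + v) - g x = g v - g 0} :=
    closure_minimal (fun v hv => hD x v hv) hcl
  have h1 : g (x + y) - g x = g y - g 0 := this (hdense y)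
  have : g (x + y) = g x + (g (x + y) - g x) := by abel
  rw [this, h1]
  abel

end

section

variable {E F : Type*} [NormedAddCommGroup E] [Module ℝ E] [ContinuousSMul ℝ E]
  [NormedAddCommGroup F] [Module ℝ F] [ContinuousSMul ℝ F]

/-- Criterion for isometries onto arbitrary metric vector spaces. -/
theorem linear_of_nonSat (W : Set E)
    (hneg : ∀ p ∈ W, -p ∈ W) (hhalf : ∀ p ∈ W, (1 / 2 : ℝ) • p ∈ W)
    (hdense : Dense {x : E | ∃ n : ℕ, ∃ p ∈ W, (2 : ℝ) ^ n • p = x})
    (hW : ∀ p ∈ W, ∀ q ∈ W, NonSat (p + q))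
    (f : E → F) (hf : Isometry f) (hs : Function.Surjective f) (h0 : f 0 = 0) :
    ∃ L : E →ₗ[ℝ] F, ∀ x, L x = f x := by
  apply linear_of_additive f hf
  apply additive_of_self _ f hf hs h0
  intro g hg hgs hg0
  have := affine_of_absorbing g hg.continuous W hneg hhalf hdense
    (fun x p hp q hq => jensen_of_nonSat (p + q) (hW p hp q hq)
      (Equiv.ofBijective g ⟨hg.injective, hgs⟩) hg x)
  intro x y
  rw [this, hg0, sub_zero]

/-- Version with all balls of arbitrarily small radii convex. -/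
theorem linear_of_convex (hc : ∀ ε : ℝ, 0 < ε → ∃ s : ℝ, 0 < s ∧ s ≤ ε ∧
      Convex ℝ (Metric.closedBall (0 : E) s))
    (f : E → F) (hf : Isometry f) (hs : Function.Surjective f) (h0 : f 0 = 0) :
    ∃ L : E →ₗ[ℝ] F, ∀ x, L x = f x := by
  apply linear_of_additive f hf
  apply additive_of_self _ f hf hs h0
  intro g hg hgs hg0
  have hc' : ∀ ε : ℝ, 0 < ε → ∃ s : ℝ, 0 < s ∧ s ≤ ε ∧ Convex ℝ {v : E | ‖v‖ ≤ s} := by
    intro ε hε
    obtain ⟨s, h1, h2, h3⟩ := hc ε hε
    refine ⟨s, h1, h2, ?_⟩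
    have : {v : E | ‖v‖ ≤ s} = Metric.closedBall (0 : E) s := by
      ext v
      rw [mem_closedBall_zero_iff, Set.mem_ofPred_eq]
    rw [this]
    exact h3
  have := affine_of_dense g hg.continuous Set.univ dense_univ
    (fun _ _ _ _ => Set.mem_univ _) (fun _ _ => Set.mem_univ _)
    (fun u _ => ⟨(1 / 2 : ℝ) • u, Set.mem_univ _, by rw [← add_smul]; norm_num⟩)
    (fun x u _ => jensen_of_convex hc' (Equiv.ofBijective g ⟨hg.injective, hgs⟩) hg x u)
  intro x y
  rw [this, hg0, sub_zero]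

end

end Pool.Agent.Helper22
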